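import Pool.Agent.Q175.HV.F1a

/-! Project HV, job F1: up to its sign the vorticity is without divergence. -/

set_option autoImplicit false

open MeasureTheory Set Metric Filter Topology
open scoped InnerProductSpace ENNReal ContDiff NNReal
open H772R2.NS Pool.Agent.Q67.HV

namespace Pool.Agent.Q175.HV

lemma cs_ball {E : Type*} [NormedAddCommGroup E] {a : E3 → E} (ha : MemLp a 2 (volume : Measure E3)) (x : E3) {R : ℝ} (hR : 0 < R) :
    (∫ y in ball x R, ‖a y‖) ^ 2 ≤ (volume : Measure E3).real (ball x R) * ∫ y, ‖a y‖ ^ 2 := by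
  have hb : (volume : Measure E3) (ball x R) ≠ ⊤ := measure_ball_lt_top.ne
  have i1 : IntegrableOn (fun y => ‖a y‖) (ball x R) :=
    (((ha.locallyIntegrable one_le_two).integrableOn_isCompact (isCompact_closedBall x R)).mono_set
      ball_subset_closedBall).norm
  have i2 : Integrable (fun y => ‖a y‖ ^ 2) := ha.integrable_norm_pow (by norm_num)
  set I := ∫ y in ball x R, ‖a y‖ with hI
  set b := (volume : Measure E3).real (ball x R) with hbd
  have hb0 : 0 < b := ENNReal.toReal_pos (measure_ball_pos _ _ hR).ne' hb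
  have h3 : 0 ≤ ∫ y in ball x R, (‖a y‖ - I / b) ^ 2 := integral_nonneg fun y => sq_nonneg _
  have h4 : ∫ y in ball x R, (‖a y‖ - I / b) ^ 2 =
      (∫ y in ball x R, ‖a y‖ ^ 2) - 2 * (I / b) * I + b * (I / b) ^ 2 := by
    have e1 : (fun y => (‖a y‖ - I / b) ^ 2) = fun y => (‖a y‖ ^ 2 - 2 * (I / b) * ‖a y‖) + (I / b) ^ 2 := by
      funext y; ring
    rw [e1, integral_add, integral_sub, integral_const_mul, setIntegral_const, smul_eq_mul]
    · exact i2.integrableOn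
    · exact i1.const_mul _
    · exact i2.integrableOn.sub (i1.const_mul _)
    · exact integrableOn_const hb
  have h5 : ∫ y in ball x R, ‖a y‖ ^ 2 ≤ ∫ y, ‖a y‖ ^ 2 :=
    setIntegral_le_integral i2 (Filter.Eventually.of_forall fun y => sq_nonneg _)
  rw [h4] at h3
  have h6 : (∫ y in ball x R, ‖a y‖ ^ 2) - 2 * (I / b) * I + b * (I / b) ^ 2 =
      (∫ y in ball x R, ‖a y‖ ^ 2) - I ^ 2 / b := by
    field_simp
    ring
  rw [h6] at h3
  have h7 : I ^ 2 / b ≤ ∫ y, ‖a y‖ ^ 2 := by linarith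
  rw [div_le_iff₀ hb0] at h7
  linarith

/-- the vorticity is approximated -/
lemma wd_lim (hE : StmE0) (hW : StmW) {v : E3 → E3} {z : E3 → M3} (h : HS v z) :
    Tendsto (fun n : ℕ => ∫ y, ‖wd (1 / (n + 1)) z y - vor (z y)‖ ^ 2) atTop (𝓝 0) := by
  have hm := vor_memLp h.mz
  have h1 : ∀ i : Fin 3, Tendsto (fun n : ℕ => ∫ x, (wd (1 / (n + 1)) z x i - vor (z x) i) ^ 2) atTop (𝓝 0) := fun i =>
    (hE.2.2 (fun y => vor (z y) i) (comp_memLp hm i)).2
  have h2 : ∀ n : ℕ, ∫ y, ‖wd (1 / (n + 1)) z y - vor (z y)‖ ^ 2 =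
      ∑ i, ∫ x, (wd (1 / (n + 1)) z x i - vor (z x) i) ^ 2 := by
    intro n
    have hn : (0:ℝ) < 1 / (n + 1) := by positivity
    have h3 := (hW.2 v z h _ hn).2.2.2.1
    rw [← integral_finsetSum]
    · refine integral_congr_ae (Filter.Eventually.of_forall fun y => ?_)
      show ‖wd (1 / (n + 1)) z y - vor (z y)‖ ^ 2 = ∑ i, (wd (1 / (n + 1)) z y i - vor (z y) i) ^ 2
      rw [norm_sq_sum]
      refine Finset.sum_congr rfl fun i _ => ?_
      rw [PiLp.sub_apply]
      ring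
    · intro i _
      exact ((comp_memLp h3 i).sub (comp_memLp hm i)).integrable_sq
  simp_rw [h2]
  have h3 := tendsto_finsetSum (Finset.univ : Finset (Fin 3)) fun i _ => h1 i
  simpa using h3

/-- a good subsequence -/
lemma subseq (hE : StmE0) (hW : StmW) {v : E3 → E3} {z : E3 → M3} (h : HS v z) (hReg : Reg z) (x : E3) {R : ℝ} :
    ∃ (u : ℕ → E3 → E3) (M : ℝ), 0 ≤ M ∧ (∀ i, ContDiff ℝ ∞ (u i)) ∧
      (∀ i x, ∑ j, fderiv ℝ (fun y => u i y j) x (ev j) = 0) ∧ (∀ i, MemLp (u i) 2 (volume : Measure E3)) ∧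
      (∀ i, ∫⁻ y in ball x R, ENNReal.ofReal (gs (u i) y / (1 + ‖u i y‖ ^ 2)) ≤ ENNReal.ofReal M) ∧
      Tendsto (fun i => ∫ y, ‖u i y - vor (z y)‖ ^ 2) atTop (𝓝 0) ∧
      ∀ᵐ y : E3, Tendsto (fun i => u i y) atTop (𝓝 (vor (z y))) := by
  obtain ⟨N, hN⟩ := exists_nat_gt (‖x‖ + R)
  obtain ⟨M, hM⟩ := hReg N
  obtain ⟨φ, hφ, hφM⟩ := extraction_of_frequently_atTop hM
  have hm := vor_memLp h.mz
  have hn : ∀ n : ℕ, (0:ℝ) < 1 / (n + 1) := fun n => by positivity
  have hlim := (wd_lim hE hW h).comp hφ.tendsto_atTop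
  have hmem : ∀ n : ℕ, MemLp (wd (1 / (n + 1)) z) 2 (volume : Measure E3) := fun n => (hW.2 v z h _ (hn n)).2.2.2.1
  have hmeas : TendstoInMeasure (volume : Measure E3) (fun k => wd (1 / ((φ k : ℝ) + 1)) z) atTop fun y => vor (z y) := by
    refine tendstoInMeasure_of_tendsto_eLpNorm (p := 2) (by norm_num) (fun k => (hmem (φ k)).1) hm.1 ?_
    have h1 : ∀ k, eLpNorm (wd (1 / ((φ k : ℝ) + 1)) z - fun y => vor (z y)) 2 (volume : Measure E3) =
        ENNReal.ofReal (√(∫ y, ‖wd (1 / ((φ k : ℝ) + 1)) z y - vor (z y)‖ ^ 2)) := by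
      intro k
      rw [((hmem (φ k)).sub hm).eLpNorm_eq_integral_rpow_norm (by norm_num) (by norm_num)]
      congr 1
      rw [Real.sqrt_eq_rpow]
      norm_num
    simp_rw [h1]
    have h2 : Tendsto (fun k => √(∫ y, ‖wd (1 / ((φ k : ℝ) + 1)) z y - vor (z y)‖ ^ 2)) atTop (𝓝 √0) :=
      (Real.continuous_sqrt.tendsto 0).comp hlim
    rw [Real.sqrt_zero] at h2
    have h3 := ENNReal.tendsto_ofReal h2
    rwa [ENNReal.ofReal_zero] at h3
  obtain ⟨ns, hns, hae⟩ := hmeas.exists_seq_tendsto_ae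
  refine ⟨fun i => wd (1 / ((φ (ns i) : ℝ) + 1)) z, max M 0, le_max_right _ _, fun i => ?_, fun i x => ?_,
    fun i => hmem _, fun i => ?_, hlim.comp hns.tendsto_atTop, hae⟩
  · exact contDiff_euclidean.mpr (hW.2 v z h _ (hn (φ (ns i)))).2.1
  · exact (hW.2 v z h _ (hn (φ (ns i)))).2.2.1 x
  · refine (lintegral_mono_set fun y hy => ?_).trans ((hφM (ns i)).trans (ENNReal.ofReal_le_ofReal (le_max_left _ _)))
    rw [mem_ball, dist_zero_right]
    rw [mem_ball, dist_eq_norm] at hy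
    have h1 : ‖y‖ ≤ ‖y - x‖ + ‖x‖ := by
      have := norm_add_le (y - x) x
      rwa [sub_add_cancel] at this
    linarith

/-- step one -/
lemma step1 {κ ε lam : ℝ} (hε : 0 < ε) (hl : 0 < lam) {L : ℝ}
    (hL : ∀ t, |deriv (fi κ) t| ≤ L) {e : E3} (he : ‖e‖ = 1) {W w : E3 → E3} (hW : ContDiff ℝ ∞ W)
    (hdiv : ∀ x, ∑ i, fderiv ℝ (fun y => W y i) x (ev i) = 0) (hWm : MemLp W 2 (volume : Measure E3))
    (hwm : MemLp w 2 (volume : Measure E3)) {ζ : E3 → ℝ} (hζ : ContDiff ℝ ∞ ζ)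
    (hc : HasCompactSupport ζ) {x : E3} {R : ℝ} (hs : tsupport ζ ⊆ ball x R) {Z : ℝ} (hZ : ∀ y, |ζ y| ≤ Z) {M : ℝ}
    (hM0 : 0 ≤ M)
    (hM : ∫⁻ y in ball x R, ENNReal.ofReal (gs W y / (1 + ‖W y‖ ^ 2)) ≤ ENNReal.ofReal M) :
    |∫ y, mm κ ε e (W y) * ∑ j, W y j * fderiv ℝ ζ y (ev j)| ≤
      Z * (lam * ((∫ y in ball x R, deriv (fi κ) (tt ε e (W y)) ^ 2 * (1 + 2 * ‖w y‖ ^ 2)) +
        2 * L ^ 2 * ∫ y, ‖W y - w y‖ ^ 2) + lam⁻¹ * M) := by
  have hZ0 : 0 ≤ Z := (abs_nonneg _).trans (hZ x)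
  have hL0 : 0 ≤ L := (abs_nonneg _).trans (hL 0)
  have hWc := hW.continuous
  have hgsc : Continuous fun y => gs W y := by
    unfold gs
    refine continuous_finsetSum _ fun i _ => continuous_finsetSum _ fun j _ => ?_
    exact (((contDiff_euclidean.mp hW i).continuous_fderiv (by norm_num)).clm_apply continuous_const).pow 2
  have hg2 : Continuous fun y => gs W y / (1 + ‖W y‖ ^ 2) :=
    hgsc.div (continuous_const.add (hWc.norm.pow 2)) fun y => by positivity
  have hφc : Continuous fun y => deriv (fi κ) (tt ε e (W y)) ^ 2 :=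
    ((fi_deriv_cont κ).comp ((tt_cd hε e).continuous.comp hWc)).pow 2
  have hp1 : Continuous fun y => deriv (fi κ) (tt ε e (W y)) ^ 2 * (1 + ‖W y‖ ^ 2) :=
    hφc.mul (continuous_const.add (hWc.norm.pow 2))
  have iK : ∀ {f : E3 → ℝ}, Continuous f → IntegrableOn f (ball x R) := fun {f} hf =>
    (hf.continuousOn.integrableOn_compact (isCompact_closedBall x R)).mono_set ball_subset_closedBall
  rw [ibp hε e hW hdiv hζ hc, abs_neg]
  set q : E3 → ℝ := fun y => lam * (deriv (fi κ) (tt ε e (W y)) ^ 2 * (1 + ‖W y‖ ^ 2)) +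
    lam⁻¹ * (gs W y / (1 + ‖W y‖ ^ 2)) with hq
  have hq0 : ∀ y, 0 ≤ q y := fun y => by
    have := gs_nonneg W y
    positivity
  have h1 : |∫ y, fderiv ℝ (mm κ ε e) (W y) (∑ j, W y j • fderiv ℝ W y (ev j)) * ζ y| ≤
      ∫ y in ball x R, Z * q y := by
    rw [← integral_indicator measurableSet_ball]
    refine (abs_integral_le_integral_abs).trans ?_
    refine integral_mono_of_nonneg (Filter.Eventually.of_forall fun y => abs_nonneg _) ?_
      (Filter.Eventually.of_forall fun y => ?_)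
    · exact (integrable_indicator_iff measurableSet_ball).mpr
        ((iK ((continuous_const.mul hp1).add (continuous_const.mul hg2))).const_mul Z)
    · by_cases hy : y ∈ ball x R
      · rw [indicator_of_mem hy]
        show |_ * ζ y| ≤ _
        rw [abs_mul, mul_comm]
        exact mul_le_mul (hZ y) (ibp_bd hε hl he hW y) (abs_nonneg _) hZ0
      · rw [indicator_of_notMem hy]
        show |_ * ζ y| ≤ _
        have : ζ y = 0 := image_eq_zero_of_notMem_tsupport fun h => hy (hs h)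
        rw [this, mul_zero, abs_zero]
  refine h1.trans ?_
  rw [integral_const_mul]
  refine mul_le_mul_of_nonneg_left ?_ hZ0
  rw [hq]
  rw [integral_add ((iK hp1).const_mul lam) ((iK hg2).const_mul _), integral_const_mul, integral_const_mul]
  refine add_le_add (mul_le_mul_of_nonneg_left ?_ hl.le) (mul_le_mul_of_nonneg_left ?_ (by positivity))
  · have i1 : IntegrableOn (fun y => deriv (fi κ) (tt ε e (W y)) ^ 2 * (1 + 2 * ‖w y‖ ^ 2)) (ball x R) := by
      have i2 : IntegrableOn (fun y => 1 + 2 * ‖w y‖ ^ 2) (ball x R) :=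
        (integrableOn_const measure_ball_lt_top.ne).add ((hwm.integrable_norm_pow (by norm_num)).const_mul 2).integrableOn
      refine Integrable.bdd_mul (c := L ^ 2) i2 hφc.aestronglyMeasurable (Filter.Eventually.of_forall fun y => ?_)
      rw [Real.norm_eq_abs, abs_pow]
      exact pow_le_pow_left₀ (abs_nonneg _) (hL _) 2
    have i3 : Integrable fun y => ‖W y - w y‖ ^ 2 := (hWm.sub hwm).integrable_norm_pow (by norm_num)
    have h2 : ∫ y in ball x R, deriv (fi κ) (tt ε e (W y)) ^ 2 * (1 + ‖W y‖ ^ 2) ≤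
        ∫ y in ball x R, (deriv (fi κ) (tt ε e (W y)) ^ 2 * (1 + 2 * ‖w y‖ ^ 2) + 2 * L ^ 2 * ‖W y - w y‖ ^ 2) := by
      refine setIntegral_mono (iK hp1) (i1.add (i3.const_mul _).integrableOn) fun y => ?_
      have a1 : ‖W y‖ ^ 2 ≤ 2 * ‖w y‖ ^ 2 + 2 * ‖W y - w y‖ ^ 2 := by
        have : ‖W y‖ ≤ ‖w y‖ + ‖W y - w y‖ := by
          have := norm_add_le (w y) (W y - w y)
          rwa [add_sub_cancel] at this
        nlinarith [sq_nonneg (‖w y‖ - ‖W y - w y‖), norm_nonneg (W y)]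
      have a2 : deriv (fi κ) (tt ε e (W y)) ^ 2 ≤ L ^ 2 := by
        rw [← sq_abs]
        exact pow_le_pow_left₀ (abs_nonneg _) (hL _) 2
      have a3 : 0 ≤ deriv (fi κ) (tt ε e (W y)) ^ 2 := sq_nonneg _
      show deriv (fi κ) (tt ε e (W y)) ^ 2 * (1 + ‖W y‖ ^ 2) ≤
        deriv (fi κ) (tt ε e (W y)) ^ 2 * (1 + 2 * ‖w y‖ ^ 2) + 2 * L ^ 2 * ‖W y - w y‖ ^ 2
      nlinarith [mul_le_mul_of_nonneg_left a1 a3, mul_le_mul_of_nonneg_right a2 (sq_nonneg ‖W y - w y‖)]
    refine h2.trans ?_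
    rw [integral_add i1 (i3.const_mul _).integrableOn, integral_const_mul]
    have h3 : ∫ y in ball x R, ‖W y - w y‖ ^ 2 ≤ ∫ y, ‖W y - w y‖ ^ 2 :=
      setIntegral_le_integral i3 (Filter.Eventually.of_forall fun y => sq_nonneg _)
    have h4 := mul_le_mul_of_nonneg_left h3 (by positivity : 0 ≤ 2 * L ^ 2)
    linarith
  · rw [integral_eq_lintegral_of_nonneg_ae (Filter.Eventually.of_forall fun y => ?_) hg2.aestronglyMeasurable]
    · exact ENNReal.toReal_le_of_le_ofReal hM0 hM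
    · have := gs_nonneg W y
      show 0 ≤ gs W y / (1 + ‖W y‖ ^ 2)
      positivity

/-- the bound of the linear form -/
lemma lin_bd {ζ : E3 → ℝ} (y a : E3) : ∑ j, a j * fderiv ℝ ζ y (ev j) = fderiv ℝ ζ y a := by
  have h1 : a = ∑ j, a j • ev j := by
    ext i
    simp [Fin.sum_univ_three, ev, PiLp.single_apply]
    fin_cases i <;> simp
  conv_rhs => rw [h1]
  rw [map_sum]
  refine Finset.sum_congr rfl fun j _ => ?_
  rw [map_smul, smul_eq_mul]

/-- pointwise limits -/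
lemma mm_lim {κ : ℝ} (hκ : 0 < κ) {e w : E3} (hw : κ * ‖w‖ ≤ |⟪e, w⟫_ℝ|) (h0 : w ≠ 0) :
    ∀ᶠ n : ℕ in atTop, mm κ (1 / (n + 1)) e w = Real.sign ⟪e, w⟫_ℝ ∧
      deriv (fi κ) (tt (1 / (n + 1)) e w) = 0 := by
  have hn : 0 < ‖w‖ := norm_pos_iff.mpr h0
  have h1 : ∀ᶠ n : ℕ in atTop, (1:ℝ) / (n + 1) < ‖w‖ :=
    tendsto_one_div_add_atTop_nhds_zero_nat.eventually (gt_mem_nhds hn)
  filter_upwards [h1] with n hε
  have hε0 : (0:ℝ) < 1 / (n + 1) := by positivity
  set ε : ℝ := 1 / (n + 1) with hεd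
  set N := √(‖w‖ ^ 2 + ε ^ 2) with hN
  have hp : 0 < ‖w‖ ^ 2 + ε ^ 2 := by positivity
  have hN0 : 0 < N := Real.sqrt_pos.mpr hp
  have hN2 : N ^ 2 = ‖w‖ ^ 2 + ε ^ 2 := Real.sq_sqrt hp.le
  have hN3 : N < 2 * ‖w‖ := by
    by_contra hcon
    push Not at hcon
    nlinarith
  have h2 : κ / 2 < |tt ε e w| := by
    unfold tt
    rw [abs_div, abs_of_pos hN0, lt_div_iff₀ hN0]
    nlinarith
  refine ⟨?_, fi_deriv_far hκ h2⟩
  unfold mm
  rcases lt_trichotomy (⟪e, w⟫_ℝ) 0 with h3 | h3 | h3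
  · rw [Real.sign_of_neg h3]
    refine fi_neg hκ ?_
    have h4 : tt ε e w < 0 := div_neg_of_neg_of_pos h3 hN0
    rw [abs_of_neg h4] at h2
    linarith
  · exfalso
    rw [h3, abs_zero] at hw
    have := mul_pos hκ hn
    linarith
  · rw [Real.sign_of_pos h3]
    refine fi_pos hκ ?_
    have h4 : 0 < tt ε e w := div_pos h3 hN0
    rw [abs_of_pos h4] at h2
    exact h2.le

lemma aesm_apply {ζ : E3 → ℝ} (hζ : Continuous (fderiv ℝ ζ)) {a : E3 → E3} (ha : AEStronglyMeasurable a (volume : Measure E3)) :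
    AEStronglyMeasurable (fun y => fderiv ℝ ζ y (a y)) (volume : Measure E3) :=
  Continuous.comp_aestronglyMeasurable₂ (g := fun (A : E3 →L[ℝ] ℝ) (b : E3) => A b)
    isBoundedBilinearMap_apply.continuous hζ.aestronglyMeasurable ha

/-- step two -/
lemma step2 {κ ε lam : ℝ} (hε : 0 < ε) (hl : 0 < lam) {L : ℝ}
    (hL : ∀ t, |deriv (fi κ) t| ≤ L) {e : E3} (he : ‖e‖ = 1) {u : ℕ → E3 → E3} {w : E3 → E3}
    (hu : ∀ i, ContDiff ℝ ∞ (u i))
    (hdiv : ∀ i x, ∑ j, fderiv ℝ (fun y => u i y j) x (ev j) = 0)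
    (hum : ∀ i, MemLp (u i) 2 (volume : Measure E3))
    (hwm : MemLp w 2 (volume : Measure E3)) {ζ : E3 → ℝ} (hζ : ContDiff ℝ ∞ ζ)
    (hc : HasCompactSupport ζ) {x : E3} {R : ℝ} (hR : 0 < R) (hs : tsupport ζ ⊆ ball x R) {Z : ℝ}
    (hZ : ∀ y, |ζ y| ≤ Z) (hZ2 : ∀ y, ‖fderiv ℝ ζ y‖ ≤ Z) {M : ℝ} (hM0 : 0 ≤ M)
    (hM : ∀ i, ∫⁻ y in ball x R, ENNReal.ofReal (gs (u i) y / (1 + ‖u i y‖ ^ 2)) ≤ ENNReal.ofReal M)
    (hD : Tendsto (fun i => ∫ y, ‖u i y - w y‖ ^ 2) atTop (𝓝 0))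
    (hae : ∀ᵐ y : E3, Tendsto (fun i => u i y) atTop (𝓝 (w y))) :
    |∫ y, mm κ ε e (w y) * ∑ j, w y j * fderiv ℝ ζ y (ev j)| ≤
      Z * (lam * (∫ y in ball x R, deriv (fi κ) (tt ε e (w y)) ^ 2 * (1 + 2 * ‖w y‖ ^ 2)) + lam⁻¹ * M) := by
  have hZ0 : 0 ≤ Z := (abs_nonneg _).trans (hZ x)
  have hL0 : 0 ≤ L := (abs_nonneg _).trans (hL 0)
  have hmmc : Continuous (mm κ ε e) := (mm_cd hε κ e).continuous
  have hφc : Continuous fun a => deriv (fi κ) (tt ε e a) ^ 2 :=
    ((fi_deriv_cont κ).comp (tt_cd hε e).continuous).pow 2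
  have hζd : Continuous (fderiv ℝ ζ) := hζ.continuous_fderiv (by norm_num)
  have hout : ∀ y, y ∉ ball x R → fderiv ℝ ζ y = 0 := fun y hy =>
    image_eq_zero_of_notMem_tsupport fun h => hy (hs (tsupport_fderiv_subset ℝ h))
  have iw : IntegrableOn (fun y => ‖w y‖) (ball x R) :=
    (((hwm.locallyIntegrable one_le_two).integrableOn_isCompact (isCompact_closedBall x R)).mono_set
      ball_subset_closedBall).norm
  have isub : ∀ i, IntegrableOn (fun y => ‖u i y - w y‖) (ball x R) := fun i =>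
    (((((hum i).sub hwm).locallyIntegrable one_le_two).integrableOn_isCompact (isCompact_closedBall x R)).mono_set
      ball_subset_closedBall).norm
  simp_rw [lin_bd]
  -- the right hand side
  have h1 := fun i => step1 (w := w) hε hl hL he (hu i) (hdiv i) (hum i) hwm hζ hc hs hZ hM0 (hM i)
  simp_rw [lin_bd] at h1
  have hR1 : Tendsto (fun i => ∫ y in ball x R, deriv (fi κ) (tt ε e (u i y)) ^ 2 * (1 + 2 * ‖w y‖ ^ 2)) atTop
      (𝓝 (∫ y in ball x R, deriv (fi κ) (tt ε e (w y)) ^ 2 * (1 + 2 * ‖w y‖ ^ 2))) := by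
    have i2 : IntegrableOn (fun y => 1 + 2 * ‖w y‖ ^ 2) (ball x R) :=
      (integrableOn_const measure_ball_lt_top.ne).add ((hwm.integrable_norm_pow (by norm_num)).const_mul 2).integrableOn
    refine tendsto_integral_of_dominated_convergence (fun y => L ^ 2 * (1 + 2 * ‖w y‖ ^ 2)) (fun i => ?_)
      (i2.const_mul _) (fun i => Filter.Eventually.of_forall fun y => ?_) ?_
    · exact (hφc.comp (hu i).continuous).aestronglyMeasurable.mul i2.aestronglyMeasurable
    · rw [Real.norm_eq_abs, abs_mul, abs_pow, abs_of_nonneg (by positivity : 0 ≤ 1 + 2 * ‖w y‖ ^ 2)]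
      exact mul_le_mul_of_nonneg_right (pow_le_pow_left₀ (abs_nonneg _) (hL _) 2) (by positivity)
    · filter_upwards [ae_restrict_of_ae hae] with y hy
      exact ((hφc.tendsto (w y)).comp hy).mul_const _
  have hR2 : Tendsto (fun i => Z * (lam * ((∫ y in ball x R, deriv (fi κ) (tt ε e (u i y)) ^ 2 * (1 + 2 * ‖w y‖ ^ 2)) +
        2 * L ^ 2 * ∫ y, ‖u i y - w y‖ ^ 2) + lam⁻¹ * M)) atTop
      (𝓝 (Z * (lam * ((∫ y in ball x R, deriv (fi κ) (tt ε e (w y)) ^ 2 * (1 + 2 * ‖w y‖ ^ 2)) +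
        2 * L ^ 2 * 0) + lam⁻¹ * M))) :=
    (((hR1.add (hD.const_mul _)).const_mul _).add_const _).const_mul _
  rw [mul_zero, add_zero] at hR2
  -- the left hand side
  have hLc : Tendsto (fun i => ∫ y, mm κ ε e (u i y) * fderiv ℝ ζ y (w y)) atTop
      (𝓝 (∫ y, mm κ ε e (w y) * fderiv ℝ ζ y (w y))) := by
    refine tendsto_integral_of_dominated_convergence (fun y => (ball x R).indicator (fun y => Z * ‖w y‖) y) (fun i => ?_)
      ((integrable_indicator_iff measurableSet_ball).mpr (iw.const_mul Z))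
      (fun i => Filter.Eventually.of_forall fun y => ?_) ?_
    · exact (hmmc.comp (hu i).continuous).aestronglyMeasurable.mul
        (aesm_apply hζd hwm.1)
    · by_cases hy : y ∈ ball x R
      · rw [indicator_of_mem hy, norm_mul, Real.norm_eq_abs]
        have a1 := mm_abs κ ε e (u i y)
        have a2 : ‖fderiv ℝ ζ y (w y)‖ ≤ Z * ‖w y‖ :=
          (ContinuousLinearMap.le_opNorm _ _).trans (mul_le_mul_of_nonneg_right (hZ2 y) (norm_nonneg _))
        have a3 := mul_le_mul a1 a2 (norm_nonneg _) zero_le_one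
        rwa [one_mul] at a3
      · rw [indicator_of_notMem hy, hout y hy]
        simp
    · filter_upwards [hae] with y hy
      exact ((hmmc.tendsto (w y)).comp hy).mul_const _
  have hI : Tendsto (fun i => ∫ y in ball x R, ‖u i y - w y‖) atTop (𝓝 0) := by
    have h2 : Tendsto (fun i => √((volume : Measure E3).real (ball x R) * ∫ y, ‖u i y - w y‖ ^ 2)) atTop (𝓝 0) := by
      have := (Real.continuous_sqrt.tendsto 0).comp
        (show Tendsto (fun i => (volume : Measure E3).real (ball x R) * ∫ y, ‖u i y - w y‖ ^ 2) atTop (𝓝 0) by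
          simpa using hD.const_mul ((volume : Measure E3).real (ball x R)))
      rwa [Real.sqrt_zero] at this
    refine squeeze_zero (fun i => integral_nonneg fun y => norm_nonneg _) (fun i => ?_) h2
    exact Real.le_sqrt_of_sq_le (cs_ball ((hum i).sub hwm) x hR)
  have hE1 : ∀ i, |∫ y, mm κ ε e (u i y) * fderiv ℝ ζ y (w y)| ≤
      |∫ y, mm κ ε e (u i y) * fderiv ℝ ζ y (u i y)| + Z * ∫ y in ball x R, ‖u i y - w y‖ := by
    intro i
    have ib : ∀ {a : E3 → E3}, AEStronglyMeasurable a (volume : Measure E3) → IntegrableOn (fun y => ‖a y‖) (ball x R) →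
        Integrable (fun y => mm κ ε e (u i y) * fderiv ℝ ζ y (a y)) := by
      intro a ha1 ha2
      refine Integrable.mono' ((integrable_indicator_iff measurableSet_ball).mpr (ha2.const_mul Z))
        ((hmmc.comp (hu i).continuous).aestronglyMeasurable.mul
          (aesm_apply hζd ha1)) (Filter.Eventually.of_forall fun y => ?_)
      by_cases hy : y ∈ ball x R
      · rw [indicator_of_mem hy, norm_mul, Real.norm_eq_abs]
        have a1 := mm_abs κ ε e (u i y)
        have a2 : ‖fderiv ℝ ζ y (a y)‖ ≤ Z * ‖a y‖ :=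
          (ContinuousLinearMap.le_opNorm _ _).trans (mul_le_mul_of_nonneg_right (hZ2 y) (norm_nonneg _))
        have a3 := mul_le_mul a1 a2 (norm_nonneg _) zero_le_one
        rwa [one_mul] at a3
      · rw [indicator_of_notMem hy, hout y hy]
        simp
    have j1 := ib hwm.1 iw
    have j2 := ib ((hum i).sub hwm).1 (isub i)
    have j3 : ∫ y, mm κ ε e (u i y) * fderiv ℝ ζ y (u i y) =
        (∫ y, mm κ ε e (u i y) * fderiv ℝ ζ y (w y)) + ∫ y, mm κ ε e (u i y) * fderiv ℝ ζ y ((u i - w) y) := by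
      rw [← integral_add j1 j2]
      refine integral_congr_ae (Filter.Eventually.of_forall fun y => ?_)
      show _ = mm κ ε e (u i y) * fderiv ℝ ζ y (w y) + mm κ ε e (u i y) * fderiv ℝ ζ y (u i y - w y)
      rw [map_sub]
      ring
    have j4 : |∫ y, mm κ ε e (u i y) * fderiv ℝ ζ y ((u i - w) y)| ≤ Z * ∫ y in ball x R, ‖u i y - w y‖ := by
      rw [← integral_const_mul, ← integral_indicator measurableSet_ball]
      refine abs_integral_le_integral_abs.trans (integral_mono_of_nonneg (Filter.Eventually.of_forall fun y => abs_nonneg _)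
        ((integrable_indicator_iff measurableSet_ball).mpr ((isub i).const_mul Z)) (Filter.Eventually.of_forall fun y => ?_))
      by_cases hy : y ∈ ball x R
      · rw [indicator_of_mem hy]
        show |mm κ ε e (u i y) * fderiv ℝ ζ y ((u i - w) y)| ≤ _
        rw [abs_mul]
        have a1 := mm_abs κ ε e (u i y)
        have a2 : |fderiv ℝ ζ y ((u i - w) y)| ≤ Z * ‖(u i - w) y‖ :=
          (ContinuousLinearMap.le_opNorm _ _).trans (mul_le_mul_of_nonneg_right (hZ2 y) (norm_nonneg _))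
        have a3 := mul_le_mul a1 a2 (abs_nonneg _) zero_le_one
        rwa [one_mul] at a3
      · rw [indicator_of_notMem hy]
        show |mm κ ε e (u i y) * fderiv ℝ ζ y ((u i - w) y)| ≤ _
        rw [hout y hy]
        simp
    have j5 : (∫ y, mm κ ε e (u i y) * fderiv ℝ ζ y (w y)) =
        (∫ y, mm κ ε e (u i y) * fderiv ℝ ζ y (u i y)) - ∫ y, mm κ ε e (u i y) * fderiv ℝ ζ y ((u i - w) y) := by
      rw [j3]; ring
    rw [j5]
    exact (abs_sub _ _).trans (add_le_add_right j4 _)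
  refine le_of_tendsto_of_tendsto' hLc.abs (hR2.add (hI.const_mul Z)) (fun i => ?_) |>.trans (by rw [mul_zero, add_zero])
  exact (hE1 i).trans (add_le_add_left (h1 i) _)

/-- HV-F1 -/
theorem stmF1 (hE : StmE0) (hW : StmW) : StmF1 := by
  intro κ hκ hκ1 v z h hReg x e R hR he hcone ζ hζ hc hs
  obtain ⟨u, M, hM0, hu, hdiv, hum, hgs, hD, hae⟩ := subseq hE hW h hReg x (R := R)
  have hm := vor_memLp h.mz
  obtain ⟨Z1, hZ1⟩ := hζ.continuous.bounded_above_of_compact_support hc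
  obtain ⟨Z2, hZ2⟩ := (hζ.continuous_fderiv (by norm_num)).bounded_above_of_compact_support (hc.fderiv (𝕜 := ℝ))
  obtain ⟨L, hL0, hL⟩ := fi_deriv_bd hκ
  have hout : ∀ y, y ∉ ball x R → fderiv ℝ ζ y = 0 := fun y hy =>
    image_eq_zero_of_notMem_tsupport fun h => hy (hs (tsupport_fderiv_subset ℝ h))
  have iw : IntegrableOn (fun y => ‖vor (z y)‖) (ball x R) := vor_loc h.mz x R
  set Z := max Z1 Z2 with hZd
  have hz1 : ∀ y, |ζ y| ≤ Z := fun y => (hZ1 y).trans (le_max_left _ _)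
  have hz2 : ∀ y, ‖fderiv ℝ ζ y‖ ≤ Z := fun y => (hZ2 y).trans (le_max_right _ _)
  have hZ0 : 0 ≤ Z := (abs_nonneg _).trans (hz1 x)
  have h2 := fun (lam : ℝ) (hl : 0 < lam) (n : ℕ) =>
    step2 (ε := 1 / ((n : ℝ) + 1)) (lam := lam) (by positivity) hl hL he hu hdiv hum hm hζ hc hR hs hz1 hz2 hM0 hgs hD hae
  simp_rw [lin_bd] at h2 ⊢
  set w : E3 → E3 := fun y => vor (z y) with hwd
  -- limits
  have hmmc : ∀ n : ℕ, Continuous (mm κ (1 / (n + 1)) e) := fun n => (mm_cd (by positivity) κ e).continuous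
  have hLl : Tendsto (fun n : ℕ => ∫ y, mm κ (1 / (n + 1)) e (w y) * fderiv ℝ ζ y (w y)) atTop
      (𝓝 (∫ y, Real.sign ⟪e, w y⟫_ℝ * fderiv ℝ ζ y (w y))) := by
    refine tendsto_integral_of_dominated_convergence (fun y => (ball x R).indicator (fun y => Z * ‖w y‖) y) (fun n => ?_)
      ((integrable_indicator_iff measurableSet_ball).mpr (iw.const_mul Z))
      (fun i => Filter.Eventually.of_forall fun y => ?_) ?_
    · exact ((hmmc n).comp_aestronglyMeasurable hm.1).mul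
        (aesm_apply (hζ.continuous_fderiv (by norm_num)) hm.1)
    · by_cases hy : y ∈ ball x R
      · rw [indicator_of_mem hy, norm_mul, Real.norm_eq_abs]
        have a1 := mm_abs κ (1 / (i + 1)) e (w y)
        have a2 : ‖fderiv ℝ ζ y (w y)‖ ≤ Z * ‖w y‖ :=
          (ContinuousLinearMap.le_opNorm _ _).trans (mul_le_mul_of_nonneg_right (hz2 y) (norm_nonneg _))
        have a3 := mul_le_mul a1 a2 (norm_nonneg _) zero_le_one
        rwa [one_mul] at a3
      · rw [indicator_of_notMem hy, hout y hy]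
        simp
    · filter_upwards [hcone] with y hy
      by_cases hyB : y ∈ ball x R
      · by_cases h0 : w y = 0
        · rw [h0]; simp
        · refine tendsto_const_nhds.congr' ?_
          filter_upwards [mm_lim hκ (hy hyB) h0] with n hn
          rw [hn.1]
      · rw [hout y hyB]; simp
  have hRl : Tendsto (fun n : ℕ => ∫ y in ball x R, deriv (fi κ) (tt (1 / (n + 1)) e (w y)) ^ 2 * (1 + 2 * ‖w y‖ ^ 2)) atTop
      (𝓝 (∫ y in ball x R, (0:ℝ))) := by
    have i2 : IntegrableOn (fun y => 1 + 2 * ‖w y‖ ^ 2) (ball x R) :=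
      (integrableOn_const measure_ball_lt_top.ne).add ((hm.integrable_norm_pow (by norm_num)).const_mul 2).integrableOn
    refine tendsto_integral_of_dominated_convergence (fun y => L ^ 2 * (1 + 2 * ‖w y‖ ^ 2)) (fun n => ?_)
      (i2.const_mul _) (fun i => Filter.Eventually.of_forall fun y => ?_) ?_
    · exact (((((fi_deriv_cont κ).comp (tt_cd (by positivity : (0:ℝ) < 1 / ((n:ℝ) + 1)) e).continuous).pow 2).comp_aestronglyMeasurable
        hm.1).restrict).mul i2.aestronglyMeasurable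
    · rw [Real.norm_eq_abs, abs_mul, abs_pow, abs_of_nonneg (by positivity : 0 ≤ 1 + 2 * ‖w y‖ ^ 2)]
      exact mul_le_mul_of_nonneg_right (pow_le_pow_left₀ (abs_nonneg _) (hL _) 2) (by positivity)
    · filter_upwards [ae_restrict_of_ae hcone, ae_restrict_mem measurableSet_ball] with y hy hyB
      by_cases h0 : w y = 0
      · rw [h0]
        have : ∀ n : ℕ, tt (1 / ((n:ℝ) + 1)) e 0 = 0 := fun n => by unfold tt; simp
        simp_rw [this, fi_deriv_zero hκ]
        simp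
      · refine tendsto_const_nhds.congr' ?_
        filter_upwards [mm_lim hκ (hy hyB) h0] with n hn
        rw [hn.2]; simp
  rw [integral_zero] at hRl
  have h3 : ∀ lam : ℝ, 0 < lam → |∫ y, Real.sign ⟪e, w y⟫_ℝ * fderiv ℝ ζ y (w y)| ≤ Z * (lam⁻¹ * M) := by
    intro lam hl
    have h4 := le_of_tendsto_of_tendsto' hLl.abs (((hRl.const_mul lam).add_const (lam⁻¹ * M)).const_mul Z) (h2 lam hl)
    rwa [mul_zero, zero_add] at h4
  have h5 : Tendsto (fun n : ℕ => Z * (((n:ℝ) + 1)⁻¹ * M)) atTop (𝓝 (Z * (0 * M))) := by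
    have := tendsto_one_div_add_atTop_nhds_zero_nat (𝕜 := ℝ)
    simp_rw [one_div] at this
    exact (this.mul_const M).const_mul Z
  rw [zero_mul, mul_zero] at h5
  have h6 : |∫ y, Real.sign ⟪e, w y⟫_ℝ * fderiv ℝ ζ y (w y)| ≤ 0 :=
    ge_of_tendsto' h5 fun n => h3 _ (by positivity)
  exact abs_eq_zero.mp (le_antisymm h6 (abs_nonneg _))

end Pool.Agent.Q175.HV
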