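import Pool.Agent.Q175.HV.Mol

/-! Project HV, job F1: the smooth sign and the integration by parts. -/

set_option autoImplicit false

open MeasureTheory Set Metric Filter Topology
open scoped InnerProductSpace ENNReal ContDiff NNReal
open H772R2.NS Pool.Agent.Q67.HV

namespace Pool.Agent.Q175.HV

/-- a smooth sign -/
noncomputable def fi (κ t : ℝ) : ℝ :=
  Real.smoothTransition (4 / κ * t - 1) - Real.smoothTransition (-(4 / κ * t) - 1)

section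
variable {κ : ℝ}

lemma fi_cd (κ : ℝ) : ContDiff ℝ ∞ (fi κ) := by
  unfold fi
  exact (Real.smoothTransition.contDiff.comp ((contDiff_const.mul contDiff_id).sub contDiff_const)).sub
    (Real.smoothTransition.contDiff.comp ((contDiff_const.mul contDiff_id).neg.sub contDiff_const))

lemma fi_abs (κ t : ℝ) : |fi κ t| ≤ 1 := by
  unfold fi
  have h1 := Real.smoothTransition.nonneg (4 / κ * t - 1)
  have h2 := Real.smoothTransition.le_one (4 / κ * t - 1)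
  have h3 := Real.smoothTransition.nonneg (-(4 / κ * t) - 1)
  have h4 := Real.smoothTransition.le_one (-(4 / κ * t) - 1)
  rw [abs_le]
  constructor <;> linarith

lemma fi_pos (hκ : 0 < κ) {t : ℝ} (h : κ / 2 ≤ t) : fi κ t = 1 := by
  unfold fi
  have h1 : 2 ≤ 4 / κ * t := by
    rw [div_mul_eq_mul_div, le_div_iff₀ hκ]; linarith
  rw [Real.smoothTransition.one_of_one_le (by linarith), Real.smoothTransition.zero_of_nonpos (by linarith), sub_zero]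

lemma fi_neg (hκ : 0 < κ) {t : ℝ} (h : t ≤ -(κ / 2)) : fi κ t = -1 := by
  unfold fi
  have h1 : 4 / κ * t ≤ -2 := by
    rw [div_mul_eq_mul_div, div_le_iff₀ hκ]; linarith
  rw [Real.smoothTransition.one_of_one_le (x := -(4 / κ * t) - 1) (by linarith),
    Real.smoothTransition.zero_of_nonpos (by linarith), zero_sub]

lemma fi_deriv_far (hκ : 0 < κ) {t : ℝ} (h : κ / 2 < |t|) : deriv (fi κ) t = 0 := by
  rcases lt_abs.mp h with h1 | h1
  · have : fi κ =ᶠ[𝓝 t] fun _ => 1 := by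
      filter_upwards [lt_mem_nhds h1] with x hx
      exact fi_pos hκ (le_of_lt hx)
    rw [this.deriv_eq]
    simp
  · have : fi κ =ᶠ[𝓝 t] fun _ => -1 := by
      filter_upwards [gt_mem_nhds (show t < -(κ / 2) by linarith)] with x hx
      exact fi_neg hκ (le_of_lt hx)
    rw [this.deriv_eq]
    simp

lemma fi_deriv_zero (hκ : 0 < κ) : deriv (fi κ) 0 = 0 := by
  have : fi κ =ᶠ[𝓝 0] fun _ => 0 := by
    filter_upwards [lt_mem_nhds (show -(κ / 4) < 0 by linarith), gt_mem_nhds (show 0 < κ / 4 by linarith)] with x hx1 hx2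
    unfold fi
    have h1 : 4 / κ * x ≤ 1 := by
      rw [div_mul_eq_mul_div, div_le_iff₀ hκ]; linarith
    have h2 : -1 ≤ 4 / κ * x := by
      rw [div_mul_eq_mul_div, le_div_iff₀ hκ]; linarith
    rw [Real.smoothTransition.zero_of_nonpos (by linarith), Real.smoothTransition.zero_of_nonpos (by linarith), sub_zero]
  rw [this.deriv_eq]
  simp

lemma fi_deriv_cont (κ : ℝ) : Continuous (deriv (fi κ)) := (fi_cd κ).continuous_deriv (by norm_cast)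

lemma fi_deriv_bd (hκ : 0 < κ) : ∃ L : ℝ, 0 < L ∧ ∀ t, |deriv (fi κ) t| ≤ L := by
  obtain ⟨L, hL⟩ := (isCompact_Icc (a := -(κ / 2)) (b := κ / 2)).exists_bound_of_continuousOn
    (fi_deriv_cont κ).continuousOn
  refine ⟨max L 1, by positivity, fun t => ?_⟩
  by_cases h : κ / 2 < |t|
  · rw [fi_deriv_far hκ h, abs_zero]; positivity
  · push Not at h
    rw [abs_le] at h
    exact (hL t h).trans (le_max_left _ _)

end

/-- the regularised cosine of the angle -/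
noncomputable def tt (ε : ℝ) (e w : E3) : ℝ := ⟪e, w⟫_ℝ / √(‖w‖ ^ 2 + ε ^ 2)

/-- the regularised sign -/
noncomputable def mm (κ ε : ℝ) (e w : E3) : ℝ := fi κ (tt ε e w)

section
variable {κ ε : ℝ} {e : E3}

lemma tt_cd (hε : 0 < ε) (e : E3) : ContDiff ℝ ∞ (tt ε e) := by
  unfold tt
  have h1 : ContDiff ℝ ∞ fun w : E3 => ‖w‖ ^ 2 + ε ^ 2 := (contDiff_norm_sq ℝ).add contDiff_const
  refine (contDiff_const.inner ℝ contDiff_id).div (h1.sqrt fun w => by positivity) fun w => ?_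
  have : 0 < √(‖w‖ ^ 2 + ε ^ 2) := Real.sqrt_pos.mpr (by positivity)
  exact this.ne'

lemma mm_cd (hε : 0 < ε) (κ : ℝ) (e : E3) : ContDiff ℝ ∞ (mm κ ε e) := (fi_cd κ).comp (tt_cd hε e)

lemma mm_abs (κ ε : ℝ) (e w : E3) : |mm κ ε e w| ≤ 1 := fi_abs _ _

lemma norm_le_N (ε : ℝ) (w : E3) : ‖w‖ ≤ √(‖w‖ ^ 2 + ε ^ 2) := by
  conv_lhs => rw [← Real.sqrt_sq (norm_nonneg w)]
  exact Real.sqrt_le_sqrt (by nlinarith [sq_nonneg ε])

lemma mm_fderiv (hε : 0 < ε) (he : ‖e‖ = 1) (w u : E3) :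
    |fderiv ℝ (mm κ ε e) w u| * √(‖w‖ ^ 2 + ε ^ 2) ≤ 2 * |deriv (fi κ) (tt ε e w)| * ‖u‖ := by
  set N := √(‖w‖ ^ 2 + ε ^ 2) with hN
  have hp : 0 < ‖w‖ ^ 2 + ε ^ 2 := by positivity
  have hN0 : 0 < N := Real.sqrt_pos.mpr hp
  have hN2 : N ^ 2 = ‖w‖ ^ 2 + ε ^ 2 := Real.sq_sqrt hp.le
  have hwN : ‖w‖ ≤ N := norm_le_N ε w
  have h1 : HasFDerivAt (fun w : E3 => ‖w‖ ^ 2 + ε ^ 2) (2 • innerSL ℝ w) w := by
    have := ((hasFDerivAt_id w).norm_sq).add_const (ε ^ 2)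
    exact this
  have h2 : HasFDerivAt (fun w : E3 => √(‖w‖ ^ 2 + ε ^ 2)) ((1 / (2 * √(‖w‖ ^ 2 + ε ^ 2))) • (2 • innerSL ℝ w)) w :=
    h1.sqrt hp.ne'
  have h3 : HasFDerivAt (fun w : E3 => ⟪e, w⟫_ℝ) (innerSL ℝ e) w := (innerSL ℝ e).hasFDerivAt
  have h4 : HasFDerivAt (fun w : E3 => ⟪e, w⟫_ℝ * (√(‖w‖ ^ 2 + ε ^ 2))⁻¹)
      (⟪e, w⟫_ℝ • (-(N ^ 2)⁻¹ • ((1 / (2 * √(‖w‖ ^ 2 + ε ^ 2))) • (2 • innerSL ℝ w))) + N⁻¹ • innerSL ℝ e) w := by
    have h5 : HasFDerivAt (fun w : E3 => (√(‖w‖ ^ 2 + ε ^ 2))⁻¹)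
        (-(N ^ 2)⁻¹ • ((1 / (2 * √(‖w‖ ^ 2 + ε ^ 2))) • (2 • innerSL ℝ w))) w :=
      (hasDerivAt_inv hN0.ne').comp_hasFDerivAt w h2
    exact h3.mul h5
  have h5 : HasFDerivAt (tt ε e)
      (⟪e, w⟫_ℝ • (-(N ^ 2)⁻¹ • ((1 / (2 * √(‖w‖ ^ 2 + ε ^ 2))) • (2 • innerSL ℝ w))) + N⁻¹ • innerSL ℝ e) w := h4
  have h6 := (((fi_cd κ).differentiable (by norm_num)).differentiableAt (x := tt ε e w)).hasDerivAt.comp_hasFDerivAt w h5
  have h7 : fderiv ℝ (mm κ ε e) w u = deriv (fi κ) (tt ε e w) *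
      (⟪e, w⟫_ℝ * (-(N ^ 2)⁻¹ * (1 / (2 * N) * (2 * ⟪w, u⟫_ℝ))) + N⁻¹ * ⟪e, u⟫_ℝ) := by
    rw [show fderiv ℝ (mm κ ε e) w = _ from h6.fderiv]
    simp only [smul_apply, add_apply, innerSL_apply_apply, smul_eq_mul, nsmul_eq_mul, Nat.cast_ofNat]
    ring
  rw [h7, abs_mul]
  have h8 : |⟪e, w⟫_ℝ * (-(N ^ 2)⁻¹ * (1 / (2 * N) * (2 * ⟪w, u⟫_ℝ))) + N⁻¹ * ⟪e, u⟫_ℝ| * N ≤ 2 * ‖u‖ := by
    have a1 : |⟪e, w⟫_ℝ| ≤ ‖w‖ := by
      have := abs_real_inner_le_norm e w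
      rwa [he, one_mul] at this
    have a2 : |⟪w, u⟫_ℝ| ≤ ‖w‖ * ‖u‖ := abs_real_inner_le_norm w u
    have a3 : |⟪e, u⟫_ℝ| ≤ ‖u‖ := by
      have := abs_real_inner_le_norm e u
      rwa [he, one_mul] at this
    have e1 : (⟪e, w⟫_ℝ * (-(N ^ 2)⁻¹ * (1 / (2 * N) * (2 * ⟪w, u⟫_ℝ))) + N⁻¹ * ⟪e, u⟫_ℝ) * N =
        ⟪e, u⟫_ℝ - ⟪e, w⟫_ℝ * ⟪w, u⟫_ℝ / N ^ 2 := by
      field_simp
      ring
    have e2 : |⟪e, w⟫_ℝ * (-(N ^ 2)⁻¹ * (1 / (2 * N) * (2 * ⟪w, u⟫_ℝ))) + N⁻¹ * ⟪e, u⟫_ℝ| * N =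
        |⟪e, u⟫_ℝ - ⟪e, w⟫_ℝ * ⟪w, u⟫_ℝ / N ^ 2| := by
      rw [← e1, abs_mul, abs_of_pos hN0]
    rw [e2]
    have a4 : |⟪e, w⟫_ℝ * ⟪w, u⟫_ℝ / N ^ 2| ≤ ‖u‖ := by
      rw [abs_div, abs_mul, abs_of_pos (by positivity : 0 < N ^ 2), div_le_iff₀ (by positivity)]
      have a5 : |⟪e, w⟫_ℝ| * |⟪w, u⟫_ℝ| ≤ ‖w‖ * (‖w‖ * ‖u‖) :=
        mul_le_mul a1 a2 (abs_nonneg _) (norm_nonneg _)
      have a6 : ‖w‖ ^ 2 ≤ N ^ 2 := pow_le_pow_left₀ (norm_nonneg _) hwN 2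
      nlinarith [mul_le_mul_of_nonneg_right a6 (norm_nonneg u)]
    have a7 := abs_sub (⟪e, u⟫_ℝ) (⟪e, w⟫_ℝ * ⟪w, u⟫_ℝ / N ^ 2)
    linarith
  have h9 := mul_le_mul_of_nonneg_left h8 (abs_nonneg (deriv (fi κ) (tt ε e w)))
  linarith

end

lemma gs_nonneg (W : E3 → E3) (y : E3) : 0 ≤ gs W y :=
  Finset.sum_nonneg fun _ _ => Finset.sum_nonneg fun _ _ => sq_nonneg _

/-- the derivative in the direction of the field -/
lemma dir_le {W : E3 → E3} (hW : ContDiff ℝ ∞ W) (y : E3) :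
    ‖∑ j, W y j • fderiv ℝ W y (ev j)‖ ≤ ‖W y‖ * √(gs W y) := by
  have h1 : ∀ j, ‖fderiv ℝ W y (ev j)‖ ^ 2 = ∑ i, (fderiv ℝ (fun y => W y i) y (ev j)) ^ 2 := by
    intro j
    rw [norm_sq_sum]
    refine Finset.sum_congr rfl fun i _ => ?_
    have h2 : fderiv ℝ (fun y => W y i) y = (EuclideanSpace.proj i : E3 →L[ℝ] ℝ).comp (fderiv ℝ W y) :=
      ((EuclideanSpace.proj i : E3 →L[ℝ] ℝ).hasFDerivAt.comp y
        ((hW.differentiable (by norm_num)).differentiableAt).hasFDerivAt).fderiv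
    rw [h2]
    have h3 : ((EuclideanSpace.proj i : E3 →L[ℝ] ℝ).comp (fderiv ℝ W y)) (ev j) = (fderiv ℝ W y (ev j)) i := rfl
    rw [h3]
    ring
  have h4 : gs W y = ∑ j, ‖fderiv ℝ W y (ev j)‖ ^ 2 := by
    unfold gs
    rw [Finset.sum_comm]
    exact Finset.sum_congr rfl fun j _ => (h1 j).symm
  have h5 : ‖∑ j, W y j • fderiv ℝ W y (ev j)‖ ≤ ∑ j, |W y j| * ‖fderiv ℝ W y (ev j)‖ := by
    refine (norm_sum_le _ _).trans (le_of_eq ?_)
    refine Finset.sum_congr rfl fun j _ => ?_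
    rw [norm_smul, Real.norm_eq_abs]
  refine h5.trans ?_
  have h6 : (∑ j, |W y j| * ‖fderiv ℝ W y (ev j)‖) ^ 2 ≤ (∑ j, |W y j| ^ 2) * ∑ j, ‖fderiv ℝ W y (ev j)‖ ^ 2 :=
    Finset.sum_mul_sq_le_sq_mul_sq _ _ _
  have h7 : ∑ j, |W y j| ^ 2 = ‖W y‖ ^ 2 := by
    rw [norm_sq_sum]
    refine Finset.sum_congr rfl fun j _ => ?_
    rw [sq_abs]; ring
  have h8 : 0 ≤ gs W y := gs_nonneg W y
  rw [h7, ← h4] at h6
  have hA : 0 ≤ ∑ j, |W y j| * ‖fderiv ℝ W y (ev j)‖ :=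
    Finset.sum_nonneg fun j _ => mul_nonneg (abs_nonneg _) (norm_nonneg _)
  have hB : 0 ≤ ‖W y‖ * √(gs W y) := mul_nonneg (norm_nonneg _) (Real.sqrt_nonneg _)
  have h9 : (‖W y‖ * √(gs W y)) ^ 2 = ‖W y‖ ^ 2 * gs W y := by rw [mul_pow, Real.sq_sqrt h8]
  rw [← h9] at h6
  exact le_of_sq_le_sq' hA hB h6
where
  le_of_sq_le_sq' {a b : ℝ} (ha : 0 ≤ a) (hb : 0 ≤ b) (h : a ^ 2 ≤ b ^ 2) : a ≤ b := by
    have := abs_le_abs_of_sq_le_sq h
    rwa [abs_of_nonneg ha, abs_of_nonneg hb] at this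
  abs_le_abs_of_sq_le_sq {a b : ℝ} (h : a ^ 2 ≤ b ^ 2) : |a| ≤ |b| := sq_le_sq.mp h

/-- integration by parts -/
lemma ibp {κ ε : ℝ} (hε : 0 < ε) (e : E3) {W : E3 → E3} (hW : ContDiff ℝ ∞ W)
    (hdiv : ∀ x, ∑ i, fderiv ℝ (fun y => W y i) x (ev i) = 0) {ζ : E3 → ℝ} (hζ : ContDiff ℝ ∞ ζ)
    (hc : HasCompactSupport ζ) :
    ∫ y, mm κ ε e (W y) * ∑ j, W y j * fderiv ℝ ζ y (ev j) =
      -∫ y, fderiv ℝ (mm κ ε e) (W y) (∑ j, W y j • fderiv ℝ W y (ev j)) * ζ y := by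
  have hWj : ∀ j, ContDiff ℝ ∞ fun y => W y j := fun j => (contDiff_euclidean.mp hW) j
  have hm : ContDiff ℝ ∞ fun y => mm κ ε e (W y) := (mm_cd hε κ e).comp hW
  have hF : ∀ j, ContDiff ℝ ∞ fun y => mm κ ε e (W y) * W y j := fun j => hm.mul (hWj j)
  have hζd : ∀ j, Continuous fun y => fderiv ℝ ζ y (ev j) := fun j =>
    (hζ.continuous_fderiv (by norm_num)).clm_apply continuous_const
  have hFd : ∀ j, Continuous fun y => fderiv ℝ (fun y => mm κ ε e (W y) * W y j) y (ev j) := fun j =>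
    ((hF j).continuous_fderiv (by norm_num)).clm_apply continuous_const
  have hζc : ∀ j, HasCompactSupport fun y => fderiv ℝ ζ y (ev j) := fun j => hc.fderiv_apply (𝕜 := ℝ) (ev j)
  have i1 : ∀ j, Integrable fun y => (mm κ ε e (W y) * W y j) * fderiv ℝ ζ y (ev j) := fun j =>
    (((hF j).continuous).mul (hζd j)).integrable_of_hasCompactSupport (hζc j).mul_left
  have i2 : ∀ j, Integrable fun y => fderiv ℝ (fun y => mm κ ε e (W y) * W y j) y (ev j) * ζ y := fun j =>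
    ((hFd j).mul hζ.continuous).integrable_of_hasCompactSupport hc.mul_left
  have i3 : ∀ j, Integrable fun y => (mm κ ε e (W y) * W y j) * ζ y := fun j =>
    (((hF j).continuous).mul hζ.continuous).integrable_of_hasCompactSupport hc.mul_left
  have h1 : ∀ j, ∫ y, (mm κ ε e (W y) * W y j) * fderiv ℝ ζ y (ev j) =
      -∫ y, fderiv ℝ (fun y => mm κ ε e (W y) * W y j) y (ev j) * ζ y := fun j =>
    integral_mul_fderiv_eq_neg_fderiv_mul_of_integrable (i2 j) (i1 j) (i3 j)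
      (fun x _ => ((hF j).differentiable (by norm_num)).differentiableAt)
      (fun x _ => (hζ.differentiable (by norm_num)).differentiableAt)
  have h2 : ∫ y, mm κ ε e (W y) * ∑ j, W y j * fderiv ℝ ζ y (ev j) =
      ∑ j, ∫ y, (mm κ ε e (W y) * W y j) * fderiv ℝ ζ y (ev j) := by
    rw [← integral_finsetSum _ fun j _ => i1 j]
    refine integral_congr_ae (Filter.Eventually.of_forall fun y => ?_)
    simp only
    rw [Finset.mul_sum]
    exact Finset.sum_congr rfl fun j _ => by ring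
  rw [h2, Finset.sum_congr rfl fun j _ => h1 j, Finset.sum_neg_distrib, ← integral_finsetSum _ fun j _ => i2 j]
  congr 1
  refine integral_congr_ae (Filter.Eventually.of_forall fun y => ?_)
  simp only
  rw [← Finset.sum_mul]
  congr 1
  have hmd : DifferentiableAt ℝ (fun y => mm κ ε e (W y)) y := (hm.differentiable (by norm_num)).differentiableAt
  have h3 : ∀ j, fderiv ℝ (fun y => mm κ ε e (W y) * W y j) y (ev j) =
      mm κ ε e (W y) * fderiv ℝ (fun y => W y j) y (ev j) + W y j * fderiv ℝ (fun y => mm κ ε e (W y)) y (ev j) := by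
    intro j
    have h4 := (hmd.hasFDerivAt.mul (((hWj j).differentiable (by norm_num)).differentiableAt (x := y)).hasFDerivAt).fderiv
    have h5 : fderiv ℝ (fun y => mm κ ε e (W y) * W y j) y = _ := h4
    rw [h5]
    simp only [smul_apply, add_apply, smul_eq_mul]
  rw [Finset.sum_congr rfl fun j _ => h3 j, Finset.sum_add_distrib, ← Finset.mul_sum, hdiv y, mul_zero, zero_add, map_sum]
  refine Finset.sum_congr rfl fun j _ => ?_
  rw [map_smul, smul_eq_mul]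
  congr 1
  have h6 : fderiv ℝ (fun y => mm κ ε e (W y)) y = (fderiv ℝ (mm κ ε e) (W y)).comp (fderiv ℝ W y) :=
    fderiv_comp y (((mm_cd hε κ e).differentiable (by norm_num)).differentiableAt)
      ((hW.differentiable (by norm_num)).differentiableAt)
  rw [h6]
  rfl

/-- the bound of the right hand side -/
lemma ibp_bd {κ ε lam : ℝ} (hε : 0 < ε) (hl : 0 < lam) {e : E3} (he : ‖e‖ = 1) {W : E3 → E3} (hW : ContDiff ℝ ∞ W)
    (y : E3) : |fderiv ℝ (mm κ ε e) (W y) (∑ j, W y j • fderiv ℝ W y (ev j))| ≤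
      lam * (deriv (fi κ) (tt ε e (W y)) ^ 2 * (1 + ‖W y‖ ^ 2)) + lam⁻¹ * (gs W y / (1 + ‖W y‖ ^ 2)) := by
  set D := ∑ j, W y j • fderiv ℝ W y (ev j) with hD
  set N := √(‖W y‖ ^ 2 + ε ^ 2) with hN
  set p := |deriv (fi κ) (tt ε e (W y))| with hp
  have hN0 : 0 < N := Real.sqrt_pos.mpr (by positivity)
  have h1 := mm_fderiv (κ := κ) hε he (W y) D
  have h2 := dir_le hW y
  have h3 := norm_le_N ε (W y)
  have hg0 : 0 ≤ gs W y := gs_nonneg W y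
  have hp0 : 0 ≤ p := abs_nonneg _
  have h4 : |fderiv ℝ (mm κ ε e) (W y) D| ≤ 2 * p * √(gs W y) := by
    have h5 : |fderiv ℝ (mm κ ε e) (W y) D| * N ≤ (2 * p * √(gs W y)) * N := by
      calc _ ≤ 2 * p * ‖D‖ := h1
        _ ≤ 2 * p * (‖W y‖ * √(gs W y)) := mul_le_mul_of_nonneg_left h2 (by positivity)
        _ ≤ 2 * p * (N * √(gs W y)) := by
            refine mul_le_mul_of_nonneg_left (mul_le_mul_of_nonneg_right h3 (Real.sqrt_nonneg _)) (by positivity)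
        _ = _ := by ring
    exact le_of_mul_le_mul_right h5 hN0
  refine h4.trans ?_
  have hq : 0 < 1 + ‖W y‖ ^ 2 := by positivity
  set q := 1 + ‖W y‖ ^ 2 with hqd
  set g := gs W y with hg
  have h5 : √g ^ 2 = g := Real.sq_sqrt hg0
  have h6 : √q ^ 2 = q := Real.sq_sqrt hq.le
  have hsq : 0 < √q := Real.sqrt_pos.mpr hq
  have h7 : 0 ≤ lam⁻¹ * (lam * (p * √q) - √g / √q) ^ 2 := by positivity
  have h8 : lam⁻¹ * (lam * (p * √q) - √g / √q) ^ 2 =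
      lam * (p ^ 2 * √q ^ 2) - 2 * p * √g + lam⁻¹ * (√g ^ 2 / √q ^ 2) := by
    field_simp
    ring
  rw [h8, h5, h6] at h7
  have h9 : p ^ 2 = deriv (fi κ) (tt ε e (W y)) ^ 2 := by rw [hp, sq_abs]
  rw [h9] at h7
  linarith

end Pool.Agent.Q175.HV
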