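import Pool.Agent.Q67.HV.Defs

/-! Project HV, job Q: the kernels. -/

set_option autoImplicit false

open MeasureTheory Set Metric Filter Topology
open scoped InnerProductSpace ENNReal ContDiff NNReal
open H772R2.NS Pool.Agent.Q67.HV

namespace Pool.Agent.Q175.HV

/-- a smooth step from `0` to `1` -/
noncomputable def et (t : ℝ) : ℝ := Real.smoothTransition (2 * t - 1)

lemma et_cd : ContDiff ℝ ∞ et := by
  unfold et
  exact Real.smoothTransition.contDiff.comp ((contDiff_const.mul contDiff_id).sub contDiff_const)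

lemma et_lo {t : ℝ} (h : t ≤ 1 / 2) : et t = 0 := Real.smoothTransition.zero_of_nonpos (by linarith)

lemma et_hi {t : ℝ} (h : 1 ≤ t) : et t = 1 := Real.smoothTransition.one_of_one_le (by linarith)

lemma et_nonneg (t : ℝ) : 0 ≤ et t := Real.smoothTransition.nonneg _

lemma et_le (t : ℝ) : et t ≤ 1 := Real.smoothTransition.le_one _

lemma et_mono : Monotone et := fun a b h => Real.smoothTransition.monotone (by linarith)

lemma et_deriv_nonneg (t : ℝ) : 0 ≤ deriv et t := et_mono.deriv_nonneg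

lemma et_deriv_hi {t : ℝ} (h : 1 ≤ t) : deriv et t = 0 := by
  have : IsLocalMax et t := by
    refine Filter.Eventually.of_forall fun x => ?_
    rw [et_hi h]
    exact et_le x
  exact this.deriv_eq_zero

/-- the profile `t ^ (-3/2)` cut off near `0` -/
noncomputable def b1 (t : ℝ) : ℝ := t ^ (-(3 / 2) : ℝ) * et t

lemma b1_lo {t : ℝ} (h : t ≤ 1 / 2) : b1 t = 0 := by unfold b1; rw [et_lo h, mul_zero]

lemma b1_cd : ContDiff ℝ ∞ b1 := by
  rw [contDiff_iff_contDiffAt]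
  intro t
  rcases lt_or_ge t (1 / 2) with h | h
  · have : b1 =ᶠ[𝓝 t] fun _ => 0 := by
      filter_upwards [gt_mem_nhds h] with x hx
      exact b1_lo (le_of_lt hx)
    exact contDiffAt_const.congr_of_eventuallyEq this
  · exact (Real.contDiffAt_rpow_const_of_ne (by linarith)).mul et_cd.contDiffAt

/-- the profile of the kernel -/
noncomputable def k1 (t : ℝ) : ℝ := 2 * t * deriv b1 t + 3 * b1 t

lemma k1_cont : Continuous k1 := by
  unfold k1
  have h1 : Continuous (deriv b1) := b1_cd.continuous_deriv (by norm_cast)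
  have h2 : Continuous b1 := b1_cd.continuous
  fun_prop

lemma k1_lo {t : ℝ} (h : t < 1 / 2) : k1 t = 0 := by
  unfold k1
  have : b1 =ᶠ[𝓝 t] fun _ => 0 := by
    filter_upwards [gt_mem_nhds h] with x hx
    exact b1_lo (le_of_lt hx)
  rw [this.deriv_eq, b1_lo h.le]
  simp

lemma k1_eq {t : ℝ} (h : 0 < t) : k1 t = 2 * t ^ (-(1 / 2) : ℝ) * deriv et t := by
  unfold k1
  have h1 : HasDerivAt b1 ((-(3 / 2)) * t ^ ((-(3 / 2) : ℝ) - 1) * et t + t ^ (-(3 / 2) : ℝ) * deriv et t) t := by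
    refine (Real.hasDerivAt_rpow_const (Or.inl h.ne')).mul ?_
    exact ((et_cd.differentiable (by norm_num)).differentiableAt).hasDerivAt
  rw [h1.deriv]
  unfold b1
  have e1 : t * t ^ ((-(3 / 2) : ℝ) - 1) = t ^ (-(3 / 2) : ℝ) := by
    rw [← Real.rpow_one_add' h.le (by norm_num)]
    norm_num
  have e2 : t * t ^ (-(3 / 2) : ℝ) = t ^ (-(1 / 2) : ℝ) := by
    rw [← Real.rpow_one_add' h.le (by norm_num)]
    norm_num
  calc 2 * t * (-(3 / 2) * t ^ ((-(3 / 2) : ℝ) - 1) * et t + t ^ (-(3 / 2) : ℝ) * deriv et t) +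
      3 * (t ^ (-(3 / 2) : ℝ) * et t) = -3 * (t * t ^ ((-(3 / 2) : ℝ) - 1)) * et t +
        2 * (t * t ^ (-(3 / 2) : ℝ)) * deriv et t + 3 * (t ^ (-(3 / 2) : ℝ) * et t) := by ring
    _ = _ := by rw [e1, e2]; ring

lemma k1_nonneg (t : ℝ) : 0 ≤ k1 t := by
  rcases lt_or_ge t (1 / 2) with h | h
  · rw [k1_lo h]
  · rw [k1_eq (by linarith)]
    exact mul_nonneg (by positivity) (et_deriv_nonneg t)

lemma k1_hi {t : ℝ} (h : 1 ≤ t) : k1 t = 0 := by
  rw [k1_eq (by linarith), et_deriv_hi h, mul_zero]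

lemma k1_ne : ∃ t : ℝ, 0 < t ∧ k1 t ≠ 0 := by
  by_contra hc
  push Not at hc
  have h1 : ∀ t, deriv et t = 0 := by
    intro t
    rcases lt_or_ge t (1 / 2) with h | h
    · have : et =ᶠ[𝓝 t] fun _ => 0 := by
        filter_upwards [gt_mem_nhds h] with x hx
        exact et_lo (le_of_lt hx)
      rw [this.deriv_eq]
      simp
    · have h2 := hc t (by linarith)
      rw [k1_eq (by linarith)] at h2
      have h3 : (0:ℝ) < t ^ (-(1 / 2) : ℝ) := Real.rpow_pos_of_pos (by linarith) _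
      rcases mul_eq_zero.mp h2 with h4 | h4
      · linarith
      · exact h4
  have h2 : ∀ x y, et x = et y := is_const_of_deriv_eq_zero (et_cd.differentiable (by norm_num)) h1
  have h3 := h2 0 1
  rw [et_lo (by norm_num), et_hi le_rfl] at h3
  norm_num at h3

lemma k1_bd : ∃ D : ℝ, 0 < D ∧ ∀ t, k1 t ≤ D := by
  obtain ⟨D, hD⟩ := (isCompact_Icc (a := (0:ℝ)) (b := 1)).exists_bound_of_continuousOn k1_cont.continuousOn
  refine ⟨max D 1, by positivity, fun t => ?_⟩
  rcases lt_or_ge t (1 / 2) with h | h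
  · rw [k1_lo h]; positivity
  · rcases le_or_gt t 1 with h' | h'
    · have := hD t ⟨by linarith, h'⟩
      rw [Real.norm_eq_abs] at this
      exact ((le_abs_self _).trans this).trans (le_max_left _ _)
    · rw [k1_hi h'.le]; positivity

/-- the scaled profiles -/
noncomputable def be (s τ : ℝ) : ℝ := s⁻¹ ^ 3 * b1 (τ / s ^ 2)

/-- the scaled kernel -/
noncomputable def ka (s τ : ℝ) : ℝ := s⁻¹ ^ 3 * k1 (τ / s ^ 2)

/-- the difference of two profiles -/
noncomputable def al (s τ : ℝ) : ℝ := be s τ - be (s / 2) τ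

lemma be_cd (s : ℝ) : ContDiff ℝ ∞ (be s) := by
  unfold be
  exact contDiff_const.mul (b1_cd.comp (contDiff_id.div_const _))

lemma al_cd (s : ℝ) : ContDiff ℝ ∞ (al s) := (be_cd s).sub (be_cd (s / 2))

lemma be_deriv (s : ℝ) (τ : ℝ) : 2 * τ * deriv (be s) τ + 3 * be s τ = ka s τ := by
  have h1 : HasDerivAt (be s) (s⁻¹ ^ 3 * (deriv b1 (τ / s ^ 2) * (1 / s ^ 2))) τ := by
    unfold be
    have h2 : HasDerivAt b1 (deriv b1 (τ / s ^ 2)) (τ / s ^ 2) :=
      ((b1_cd.differentiable (by norm_num)).differentiableAt).hasDerivAt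
    have h3 : HasDerivAt (fun τ : ℝ => τ / s ^ 2) (1 / s ^ 2) τ := (hasDerivAt_id τ).div_const _
    exact (h2.comp τ h3).const_mul _
  rw [h1.deriv]
  unfold be ka k1
  ring

lemma al_deriv (s : ℝ) (τ : ℝ) : 2 * τ * deriv (al s) τ + 3 * al s τ = ka s τ - ka (s / 2) τ := by
  have h1 : deriv (al s) τ = deriv (be s) τ - deriv (be (s / 2)) τ := by
    unfold al
    exact deriv_fun_sub ((be_cd s).differentiable (by norm_num)).differentiableAt
      ((be_cd (s / 2)).differentiable (by norm_num)).differentiableAt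
  rw [h1, ← be_deriv s, ← be_deriv (s / 2)]
  unfold al
  ring

lemma be_hi {s τ : ℝ} (hs : 0 < s) (h : s ^ 2 ≤ τ) : be s τ = τ ^ (-(3 / 2) : ℝ) := by
  unfold be b1
  have h0 : 0 < s ^ 2 := by positivity
  rw [et_hi (by rw [le_div_iff₀ h0]; linarith), mul_one, Real.div_rpow (by linarith) h0.le]
  have h1 : (s ^ 2) ^ (-(3 / 2) : ℝ) = s⁻¹ ^ 3 := by
    rw [← Real.rpow_natCast s 2, ← Real.rpow_mul hs.le]
    norm_num
  rw [h1]
  have h2 : s⁻¹ ^ 3 ≠ 0 := by positivity
  field_simp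

lemma al_hi {s τ : ℝ} (hs : 0 < s) (h : s ^ 2 ≤ τ) : al s τ = 0 := by
  unfold al
  rw [be_hi hs h, be_hi (half_pos hs) (by nlinarith), sub_self]

lemma be_lo {s τ : ℝ} (hs : 0 < s) (h : τ ≤ s ^ 2 / 2) : be s τ = 0 := by
  unfold be
  have h0 : 0 < s ^ 2 := by positivity
  rw [b1_lo (by rw [div_le_iff₀ h0]; linarith), mul_zero]

lemma be_le {s τ : ℝ} (hs : 0 < s) : 0 ≤ be s τ ∧ √|τ| * be s τ ≤ 2 / s ^ 2 := by
  have h0 : 0 < s ^ 2 := by positivity
  rcases le_or_gt τ (s ^ 2 / 2) with h | h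
  · rw [be_lo hs h]
    exact ⟨le_rfl, by rw [mul_zero]; positivity⟩
  · have hτ : 0 < τ := by linarith
    have e1 : be s τ = τ ^ (-(3 / 2) : ℝ) * et (τ / s ^ 2) := by
      unfold be b1
      rw [Real.div_rpow hτ.le h0.le]
      have h1 : (s ^ 2) ^ (-(3 / 2) : ℝ) = s⁻¹ ^ 3 := by
        rw [← Real.rpow_natCast s 2, ← Real.rpow_mul hs.le]
        norm_num
      rw [h1]
      have h2 : s⁻¹ ^ 3 ≠ 0 := by positivity
      field_simp
    have e2 : 0 < τ ^ (-(3 / 2) : ℝ) := Real.rpow_pos_of_pos hτ _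
    refine ⟨by rw [e1]; exact mul_nonneg e2.le (et_nonneg _), ?_⟩
    have e3 : √|τ| * τ ^ (-(3 / 2) : ℝ) = τ⁻¹ := by
      rw [abs_of_pos hτ, Real.sqrt_eq_rpow, ← Real.rpow_add hτ]
      norm_num
      rw [Real.rpow_neg_one]
    calc √|τ| * be s τ = (√|τ| * τ ^ (-(3 / 2) : ℝ)) * et (τ / s ^ 2) := by rw [e1]; ring
      _ ≤ τ⁻¹ * 1 := by
          rw [e3]
          exact mul_le_mul_of_nonneg_left (et_le _) (by positivity)
      _ = 1 / τ := by rw [mul_one, one_div]
      _ ≤ 2 / s ^ 2 := by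
          rw [div_le_div_iff₀ hτ h0]
          linarith

lemma al_bd {s τ : ℝ} (hs : 0 < s) : √|τ| * |al s τ| ≤ 8 / s ^ 2 := by
  have h1 := be_le (τ := τ) hs
  have h2 := be_le (τ := τ) (half_pos hs)
  have h3 : |al s τ| ≤ max (be s τ) (be (s / 2) τ) := by
    unfold al
    rw [abs_le]
    constructor
    · have := le_max_right (be s τ) (be (s / 2) τ)
      linarith [h1.1]
    · have := le_max_left (be s τ) (be (s / 2) τ)
      linarith [h2.1]
  have e : 2 / (s / 2) ^ 2 = 8 / s ^ 2 := by field_simp; norm_num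
  have h4 : √|τ| * |al s τ| ≤ √|τ| * max (be s τ) (be (s / 2) τ) :=
    mul_le_mul_of_nonneg_left h3 (Real.sqrt_nonneg _)
  refine h4.trans ?_
  rcases le_total (be s τ) (be (s / 2) τ) with h | h
  · rw [max_eq_right h, ← e]
    exact h2.2
  · rw [max_eq_left h]
    refine h1.2.trans ?_
    rw [← e]
    have : 0 < s ^ 2 := by positivity
    rw [div_le_div_iff₀ this (by positivity)]
    nlinarith

lemma ka_nonneg {s : ℝ} (hs : 0 < s) (τ : ℝ) : 0 ≤ ka s τ := mul_nonneg (by positivity) (k1_nonneg _)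

lemma ka_hi {s τ : ℝ} (hs : 0 < s) (h : s ^ 2 ≤ τ) : ka s τ = 0 := by
  unfold ka
  have h0 : 0 < s ^ 2 := by positivity
  rw [k1_hi (by rw [le_div_iff₀ h0]; linarith), mul_zero]

lemma ka_cont (s : ℝ) : Continuous (ka s) := by
  unfold ka
  exact continuous_const.mul (k1_cont.comp (continuous_id.div_const _))

end Pool.Agent.Q175.HV
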