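import Pool.Agent.Q175.HV.Ker

/-! Project HV, job Q: differences of mollifications. -/

set_option autoImplicit false

open MeasureTheory Set Metric Filter Topology
open scoped InnerProductSpace ENNReal ContDiff NNReal
open H772R2.NS Pool.Agent.Q67.HV

namespace Pool.Agent.Q175.HV

/-- the test functions `α(|x-y|²) (x-y)_j` -/
noncomputable def ps (α : ℝ → ℝ) (j : Fin 3) (x y : E3) : ℝ := α (‖x - y‖ ^ 2) * (x - y) j

lemma ps_fderiv {α : ℝ → ℝ} (hα : ContDiff ℝ ∞ α) (j : Fin 3) (x y : E3) (l : Fin 3) :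
    fderiv ℝ (ps α j x) y (ev l) =
      -(2 * deriv α (‖x - y‖ ^ 2) * (x - y) l * (x - y) j + α (‖x - y‖ ^ 2) * (if j = l then 1 else 0)) := by
  have h1 : HasFDerivAt (fun y : E3 => x - y) (-(ContinuousLinearMap.id ℝ E3)) y :=
    (hasFDerivAt_id y).const_sub x
  have h2 : HasFDerivAt (fun y : E3 => ‖x - y‖ ^ 2) (2 • (innerSL ℝ (x - y)).comp (-(ContinuousLinearMap.id ℝ E3))) y :=
    h1.norm_sq
  have h3 : HasFDerivAt (fun y : E3 => α (‖x - y‖ ^ 2))
      (deriv α (‖x - y‖ ^ 2) • (2 • (innerSL ℝ (x - y)).comp (-(ContinuousLinearMap.id ℝ E3)))) y :=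
    (((hα.differentiable (by norm_num)).differentiableAt).hasDerivAt).comp_hasFDerivAt y h2
  have h4 : HasFDerivAt (fun y : E3 => (x - y) j)
      ((EuclideanSpace.proj j : E3 →L[ℝ] ℝ).comp (-(ContinuousLinearMap.id ℝ E3))) y :=
    ((EuclideanSpace.proj j : E3 →L[ℝ] ℝ).hasFDerivAt).comp y h1
  have h5 := (h3.mul h4).fderiv
  have h6 : ps α j x = fun y : E3 => α (‖x - y‖ ^ 2) * (x - y) j := rfl
  rw [h6]
  rw [show (fun y : E3 => α (‖x - y‖ ^ 2) * (x - y) j) =
    (fun y : E3 => α (‖x - y‖ ^ 2)) * fun y : E3 => (x - y) j from rfl, h5]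
  have e1 : ⟪x - y, ev l⟫_ℝ = (x - y) l := by
    unfold ev
    rw [EuclideanSpace.inner_single_right]
    simp
  have e2 : (ev l : E3) j = if j = l then 1 else 0 := by
    unfold ev
    simp
  have e3 : (EuclideanSpace.proj j : E3 →L[ℝ] ℝ) (-ev l) = -(if j = l then 1 else 0) := by
    rw [map_neg, ← e2]
    rfl
  simp only [add_apply, smul_apply, ContinuousLinearMap.comp_apply,
    neg_apply, ContinuousLinearMap.id_apply, innerSL_apply_apply, inner_neg_right, e1,
    smul_eq_mul, nsmul_eq_mul, e3, Nat.cast_ofNat]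
  ring

lemma norm_sq_sum (w : E3) : ‖w‖ ^ 2 = ∑ j, w j * w j := by
  rw [EuclideanSpace.norm_sq_eq]
  refine Finset.sum_congr rfl fun j _ => ?_
  rw [Real.norm_eq_abs, sq_abs]
  ring

lemma ps_div {α : ℝ → ℝ} (hα : ContDiff ℝ ∞ α) (x y : E3) :
    ∑ j, fderiv ℝ (ps α j x) y (ev j) =
      -(2 * ‖x - y‖ ^ 2 * deriv α (‖x - y‖ ^ 2) + 3 * α (‖x - y‖ ^ 2)) := by
  simp only [ps_fderiv hα, if_true, mul_one, Finset.sum_neg_distrib]
  rw [Finset.sum_add_distrib]
  rw [Finset.sum_const, Finset.card_univ, Fintype.card_fin]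
  have : ∑ j, 2 * deriv α (‖x - y‖ ^ 2) * (x - y) j * (x - y) j =
      2 * ‖x - y‖ ^ 2 * deriv α (‖x - y‖ ^ 2) := by
    conv_rhs => rw [norm_sq_sum (x - y)]
    rw [Finset.mul_sum, Finset.sum_mul]
    refine Finset.sum_congr rfl fun j _ => ?_
    conv_lhs => rw [norm_sq_sum (x - y)]
    ring
  rw [this]
  simp

lemma ps_symm {α : ℝ → ℝ} (hα : ContDiff ℝ ∞ α) (x y : E3) (j l : Fin 3) :
    fderiv ℝ (ps α j x) y (ev l) = fderiv ℝ (ps α l x) y (ev j) := by
  rw [ps_fderiv hα, ps_fderiv hα]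
  by_cases h : j = l
  · subst h; rfl
  · rw [if_neg h, if_neg (Ne.symm h)]
    ring

lemma ps_cd {α : ℝ → ℝ} (hα : ContDiff ℝ ∞ α) (j : Fin 3) (x : E3) : ContDiff ℝ ∞ (ps α j x) := by
  unfold ps
  have h1 : ContDiff ℝ ∞ (fun y : E3 => x - y) := contDiff_const.sub contDiff_id
  have h2 : ContDiff ℝ ∞ (fun y : E3 => ‖x - y‖ ^ 2) := h1.norm_sq ℝ
  have h3 : ContDiff ℝ ∞ (fun y : E3 => (x - y) j) := (EuclideanSpace.proj j : E3 →L[ℝ] ℝ).contDiff.comp h1
  exact (hα.comp h2).mul h3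

lemma ps_cs {α : ℝ → ℝ} {s : ℝ} (hs : 0 < s) (h : ∀ τ, s ^ 2 ≤ τ → α τ = 0) (j : Fin 3) (x : E3) :
    HasCompactSupport (ps α j x) := by
  refine HasCompactSupport.of_support_subset_isCompact (isCompact_closedBall x s) fun y hy => ?_
  rw [mem_closedBall, dist_eq_norm]
  by_contra hc
  push Not at hc
  rw [Function.mem_support] at hy
  apply hy
  unfold ps
  rw [h, zero_mul]
  rw [norm_sub_rev]
  exact pow_le_pow_left₀ hs.le hc.le 2

lemma comp_memLp {v : E3 → E3} (hv : MemLp v 2 (volume : Measure E3)) (i : Fin 3) :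
    MemLp (fun y => v y i) 2 (volume : Measure E3) :=
  (EuclideanSpace.proj i : E3 →L[ℝ] ℝ).comp_memLp' hv

lemma comp_memLpM {z : E3 → M3} (hz : MemLp z 2 (volume : Measure E3)) (p : Fin 3 × Fin 3) :
    MemLp (fun y => z y p) 2 (volume : Measure E3) :=
  (EuclideanSpace.proj p : M3 →L[ℝ] ℝ).comp_memLp' hz

lemma int_mul {f g : E3 → ℝ} (hf : MemLp f 2 (volume : Measure E3)) (hg : Continuous g) (hc : HasCompactSupport g) :
    Integrable (fun y => f y * g y) (volume : Measure E3) :=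
  MemLp.integrable_mul (p := 2) (q := 2) hf (hg.memLp_of_hasCompactSupport hc)

/-- the mollification -/
noncomputable def mo (v : E3 → E3) (k : Fin 3) (s : ℝ) (x : E3) : ℝ := ∫ y, v y k * ka s (‖x - y‖ ^ 2)

lemma kaE_cont (s : ℝ) (x : E3) : Continuous fun y : E3 => ka s (‖x - y‖ ^ 2) :=
  (ka_cont s).comp (by fun_prop)

lemma kaE_cs {s : ℝ} (hs : 0 < s) (x : E3) : HasCompactSupport fun y : E3 => ka s (‖x - y‖ ^ 2) := by
  refine HasCompactSupport.of_support_subset_isCompact (isCompact_closedBall x s) fun y hy => ?_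
  rw [mem_closedBall, dist_eq_norm]
  by_contra hc
  push Not at hc
  rw [Function.mem_support] at hy
  apply hy
  rw [ka_hi hs]
  rw [norm_sub_rev]
  exact pow_le_pow_left₀ hs.le hc.le 2

/-- the difference of two mollifications in terms of the antisymmetric part of the gradient -/
lemma mo_diff {v : E3 → E3} {z : E3 → M3} (h : HS v z) (k : Fin 3) {s : ℝ} (hs : 0 < s) (x : E3) :
    mo v k s x - mo v k (s / 2) x = ∑ j, ∫ y, (z y (k, j) - z y (j, k)) * ps (al s) j x y := by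
  have hcd := al_cd s
  have hz : ∀ τ, s ^ 2 ≤ τ → al s τ = 0 := fun τ => al_hi hs
  have hps : ∀ j, ContDiff ℝ ∞ (ps (al s) j x) := fun j => ps_cd hcd j x
  have hpc : ∀ j, HasCompactSupport (ps (al s) j x) := fun j => ps_cs hs hz j x
  have hfd : ∀ j l, Continuous fun y => fderiv ℝ (ps (al s) j x) y (ev l) := fun j l =>
    ((hps j).continuous_fderiv (by norm_num)).clm_apply continuous_const
  have hfc : ∀ j l, HasCompactSupport fun y => fderiv ℝ (ps (al s) j x) y (ev l) := fun j l =>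
    (hpc j).fderiv_apply (𝕜 := ℝ) (ev l)
  have hv := comp_memLp h.mv
  have hzz := comp_memLpM h.mz
  -- (1)
  have e1 : ∑ j, ∫ y, v y k * fderiv ℝ (ps (al s) j x) y (ev j) = -∑ j, ∫ y, z y (k, j) * ps (al s) j x y := by
    rw [← Finset.sum_neg_distrib]
    exact Finset.sum_congr rfl fun j _ => h.grad _ (hps j) (hpc j) k j
  have e2 : ∑ j, ∫ y, z y (j, k) * ps (al s) j x y = 0 := by
    have e3 : ∀ j, ∫ y, z y (j, k) * ps (al s) j x y = ∫ y, z y (j, j) * ps (al s) k x y := by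
      intro j
      have a1 := h.grad _ (hps j) (hpc j) j k
      have a2 := h.grad _ (hps k) (hpc k) j j
      have a3 : (fun y => v y j * fderiv ℝ (ps (al s) j x) y (ev k)) =
          fun y => v y j * fderiv ℝ (ps (al s) k x) y (ev j) := by
        funext y
        rw [ps_symm hcd]
      rw [a3] at a1
      linarith
    rw [Finset.sum_congr rfl fun j _ => e3 j, ← integral_finsetSum _ fun j _ =>
      int_mul (hzz (j, j)) (hps k).continuous (hpc k)]
    have e4 : (fun y => ∑ j, z y (j, j) * ps (al s) k x y) =ᵐ[volume] fun _ => 0 := by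
      filter_upwards [h.div] with y hy
      rw [← Finset.sum_mul, hy, zero_mul]
    rw [integral_congr_ae e4]
    simp
  have e5 : ∑ j, ∫ y, v y k * fderiv ℝ (ps (al s) j x) y (ev j) = -(mo v k s x - mo v k (s / 2) x) := by
    rw [← integral_finsetSum _ fun j _ => int_mul (hv k) (hfd j j) (hfc j j)]
    unfold mo
    rw [← integral_sub (int_mul (hv k) (kaE_cont s x) (kaE_cs hs x))
      (int_mul (hv k) (kaE_cont (s / 2) x) (kaE_cs (half_pos hs) x)), ← integral_neg]
    refine integral_congr_ae (Filter.Eventually.of_forall fun y => ?_)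
    show ∑ j, v y k * fderiv ℝ (ps (al s) j x) y (ev j) =
      -(v y k * ka s (‖x - y‖ ^ 2) - v y k * ka (s / 2) (‖x - y‖ ^ 2))
    rw [← Finset.mul_sum, ps_div hcd, al_deriv]
    ring
  have e6 : ∑ j, ∫ y, (z y (k, j) - z y (j, k)) * ps (al s) j x y =
      (∑ j, ∫ y, z y (k, j) * ps (al s) j x y) - (∑ j, ∫ y, z y (j, k) * ps (al s) j x y) := by
    rw [← Finset.sum_sub_distrib]
    refine Finset.sum_congr rfl fun j _ => ?_
    rw [← integral_sub (int_mul (hzz (k, j)) (hps j).continuous (hpc j))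
      (int_mul (hzz (j, k)) (hps j).continuous (hpc j))]
    refine integral_congr_ae (Filter.Eventually.of_forall fun y => ?_)
    simp only
    ring
  rw [e6, e2]
  linarith

lemma ps_bd {s : ℝ} (hs : 0 < s) (j : Fin 3) (x y : E3) : |ps (al s) j x y| ≤ 8 / s ^ 2 := by
  unfold ps
  rw [abs_mul]
  have h1 := al_bd (τ := ‖x - y‖ ^ 2) hs
  rw [abs_of_nonneg (sq_nonneg ‖x - y‖), Real.sqrt_sq (norm_nonneg _)] at h1
  have h2 : |(x - y) j| ≤ ‖x - y‖ := by
    have := PiLp.norm_apply_le (x - y) j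
    exact this
  calc |al s (‖x - y‖ ^ 2)| * |(x - y) j| ≤ |al s (‖x - y‖ ^ 2)| * ‖x - y‖ :=
        mul_le_mul_of_nonneg_left h2 (abs_nonneg _)
    _ = ‖x - y‖ * |al s (‖x - y‖ ^ 2)| := mul_comm _ _
    _ ≤ _ := h1

lemma ps_zero {s : ℝ} (hs : 0 < s) (j : Fin 3) {x y : E3} (h : y ∉ ball x s) : ps (al s) j x y = 0 := by
  unfold ps
  rw [al_hi hs, zero_mul]
  rw [mem_ball, dist_eq_norm, not_lt] at h
  rw [norm_sub_rev]
  exact pow_le_pow_left₀ hs.le h 2

lemma vor_comp (w : M3) (k j : Fin 3) : |w (k, j) - w (j, k)| ≤ ‖vor w‖ := by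
  have h0 : vor w 0 = w (2, 1) - w (1, 2) := by
    show ∑ l, ∑ k, eps 0 l k * w (k, l) = _
    simp [Fin.sum_univ_three, eps]
    ring
  have h1 : vor w 1 = w (0, 2) - w (2, 0) := by
    show ∑ l, ∑ k, eps 1 l k * w (k, l) = _
    simp [Fin.sum_univ_three, eps]
    ring
  have h2 : vor w 2 = w (1, 0) - w (0, 1) := by
    show ∑ l, ∑ k, eps 2 l k * w (k, l) = _
    simp [Fin.sum_univ_three, eps]
    ring
  have a0 : |vor w 0| ≤ ‖vor w‖ := PiLp.norm_apply_le (vor w) 0
  have a1 : |vor w 1| ≤ ‖vor w‖ := PiLp.norm_apply_le (vor w) 1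
  have a2 : |vor w 2| ≤ ‖vor w‖ := PiLp.norm_apply_le (vor w) 2
  rw [h0] at a0
  rw [h1] at a1
  rw [h2] at a2
  fin_cases k <;> fin_cases j
  · simp
  · show |w (0, 1) - w (1, 0)| ≤ _
    rw [abs_sub_comm]; exact a2
  · show |w (0, 2) - w (2, 0)| ≤ _
    exact a1
  · show |w (1, 0) - w (0, 1)| ≤ _
    exact a2
  · simp
  · show |w (1, 2) - w (2, 1)| ≤ _
    rw [abs_sub_comm]; exact a0
  · show |w (2, 0) - w (0, 2)| ≤ _
    rw [abs_sub_comm]; exact a1
  · show |w (2, 1) - w (1, 2)| ≤ _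
    exact a0
  · simp

/-- the vorticity as a linear map -/
noncomputable def vorL : M3 →ₗ[ℝ] E3 where
  toFun := vor
  map_add' a b := by
    ext i
    show ∑ l, ∑ k, eps i l k * (a + b) (k, l) = ∑ l, ∑ k, eps i l k * a (k, l) + ∑ l, ∑ k, eps i l k * b (k, l)
    rw [← Finset.sum_add_distrib]
    refine Finset.sum_congr rfl fun l _ => ?_
    rw [← Finset.sum_add_distrib]
    refine Finset.sum_congr rfl fun k _ => ?_
    rw [PiLp.add_apply, mul_add]
  map_smul' c a := by
    ext i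
    show ∑ l, ∑ k, eps i l k * (c • a) (k, l) = c * ∑ l, ∑ k, eps i l k * a (k, l)
    rw [Finset.mul_sum]
    refine Finset.sum_congr rfl fun l _ => ?_
    rw [Finset.mul_sum]
    refine Finset.sum_congr rfl fun k _ => ?_
    rw [PiLp.smul_apply, smul_eq_mul]
    ring

lemma vor_memLp {z : E3 → M3} (hz : MemLp z 2 (volume : Measure E3)) :
    MemLp (fun y => vor (z y)) 2 (volume : Measure E3) :=
  (LinearMap.toContinuousLinearMap vorL).comp_memLp' hz

lemma vor_le : ∃ C : ℝ, 0 < C ∧ ∀ w : M3, ‖vor w‖ ≤ C * ‖w‖ := by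
  refine ⟨‖LinearMap.toContinuousLinearMap vorL‖ + 1, by positivity, fun w => ?_⟩
  have h1 := (LinearMap.toContinuousLinearMap vorL).le_opNorm w
  have h2 : LinearMap.toContinuousLinearMap vorL w = vor w := rfl
  rw [h2] at h1
  nlinarith [norm_nonneg w]

lemma vor_loc {z : E3 → M3} (hz : MemLp z 2 (volume : Measure E3)) (x : E3) (r : ℝ) :
    IntegrableOn (fun y => ‖vor (z y)‖) (ball x r) :=
  (((vor_memLp hz).locallyIntegrable one_le_two).integrableOn_isCompact (isCompact_closedBall x r)).mono_set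
    ball_subset_closedBall |>.norm

/-- the difference of two mollifications is small -/
lemma mo_diff_le {v : E3 → E3} {z : E3 → M3} (h : HS v z) (k : Fin 3) {s : ℝ} (hs : 0 < s) (x : E3) :
    |mo v k s x - mo v k (s / 2) x| ≤ 24 / s ^ 2 * ∫ y in ball x s, ‖vor (z y)‖ := by
  rw [mo_diff h k hs x]
  refine (Finset.abs_sum_le_sum_abs _ _).trans ?_
  have h1 : ∀ j ∈ (Finset.univ : Finset (Fin 3)), |∫ y, (z y (k, j) - z y (j, k)) * ps (al s) j x y| ≤
      8 / s ^ 2 * ∫ y in ball x s, ‖vor (z y)‖ := by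
    intro j _
    rw [← integral_indicator measurableSet_ball, ← integral_const_mul]
    rw [← Real.norm_eq_abs]
    refine norm_integral_le_of_norm_le ?_ (Filter.Eventually.of_forall fun y => ?_)
    · exact ((integrable_indicator_iff measurableSet_ball).mpr (vor_loc h.mz x s)).const_mul _
    · by_cases hy : y ∈ ball x s
      · rw [indicator_of_mem hy, Real.norm_eq_abs, abs_mul]
        calc |z y (k, j) - z y (j, k)| * |ps (al s) j x y| ≤ ‖vor (z y)‖ * (8 / s ^ 2) :=
              mul_le_mul (vor_comp _ _ _) (ps_bd hs j x y) (abs_nonneg _) (norm_nonneg _)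
          _ = _ := mul_comm _ _
      · rw [indicator_of_notMem hy, ps_zero hs j hy, mul_zero, mul_zero, norm_zero]
  refine (Finset.sum_le_sum h1).trans (le_of_eq ?_)
  rw [Finset.sum_const, Finset.card_univ, Fintype.card_fin]
  ring

end Pool.Agent.Q175.HV
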