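import Pool.Agent.Q175.HV.Mol

/-! Project HV, job Q: the `L⁴` bound. -/

set_option autoImplicit false

open MeasureTheory Set Metric Filter Topology
open scoped InnerProductSpace ENNReal ContDiff NNReal
open H772R2.NS Pool.Agent.Q67.HV

namespace Pool.Agent.Q175.HV

/-- the constant of the kernel -/
noncomputable def c0 : ℝ := ∫ y : E3, k1 (‖y‖ ^ 2)

/-- the volume of the unit ball -/
noncomputable def V1 : ℝ := (volume : Measure E3).real (ball 0 1)

lemma V1_pos : 0 < V1 := by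
  unfold V1
  rw [measureReal_def]
  exact ENNReal.toReal_pos (measure_ball_pos _ _ one_pos).ne' measure_ball_lt_top.ne

lemma vol_ball (x : E3) {r : ℝ} (hr : 0 ≤ r) : (volume : Measure E3).real (ball x r) = r ^ 3 * V1 := by
  unfold V1
  rw [measureReal_def, Measure.addHaar_ball _ _ hr, ENNReal.toReal_mul, ENNReal.toReal_ofReal (by positivity),
    measureReal_def, finrank_euclideanSpace, Fintype.card_fin]

lemma c0_pos : 0 < c0 := by
  obtain ⟨t, ht, hk⟩ := k1_ne
  unfold c0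
  have h1 : Continuous fun y : E3 => k1 (‖y‖ ^ 2) := k1_cont.comp (by fun_prop)
  refine h1.integral_pos_of_hasCompactSupport_nonneg_nonzero ?_ (fun y => k1_nonneg _) (x := (√t) • ev 0) ?_
  · refine HasCompactSupport.of_support_subset_isCompact (isCompact_closedBall 0 1) fun y hy => ?_
    rw [mem_closedBall, dist_zero_right]
    by_contra hc
    push Not at hc
    rw [Function.mem_support] at hy
    exact hy (k1_hi (one_le_pow₀ hc.le))
  · have h2 : ‖(√t) • ev 0‖ ^ 2 = t := by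
      rw [norm_smul, Real.norm_eq_abs, abs_of_nonneg (Real.sqrt_nonneg _)]
      unfold ev
      rw [PiLp.norm_single, norm_one, mul_one, Real.sq_sqrt ht.le]
    rw [h2]
    exact hk

lemma ka_int {s : ℝ} (hs : 0 < s) (x : E3) : ∫ y : E3, ka s (‖x - y‖ ^ 2) = c0 := by
  rw [integral_sub_left_eq_self (fun y : E3 => ka s (‖y‖ ^ 2)) volume x]
  have h1 : ∀ y : E3, ka s (‖y‖ ^ 2) = s⁻¹ ^ 3 * k1 (‖s⁻¹ • y‖ ^ 2) := by
    intro y
    unfold ka
    rw [norm_smul, Real.norm_eq_abs, abs_of_pos (by positivity : 0 < s⁻¹), mul_pow, inv_pow s 2, div_eq_inv_mul]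
  simp_rw [h1]
  rw [integral_const_mul, Measure.integral_comp_inv_smul volume (fun y : E3 => k1 (‖y‖ ^ 2)) s,
    finrank_euclideanSpace, Fintype.card_fin, abs_of_pos (by positivity), smul_eq_mul, ← mul_assoc, inv_pow,
    inv_mul_cancel₀ (by positivity), one_mul]
  rfl

lemma ka_bd : ∃ D : ℝ, 0 < D ∧ ∀ s : ℝ, 0 < s → ∀ τ, |ka s τ| ≤ D * s⁻¹ ^ 3 := by
  obtain ⟨D, hD, h⟩ := k1_bd
  refine ⟨D, hD, fun s hs τ => ?_⟩
  rw [abs_of_nonneg (ka_nonneg hs τ)]
  unfold ka
  rw [mul_comm]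
  exact mul_le_mul_of_nonneg_right (h _) (by positivity)

lemma ka_zero {s : ℝ} (hs : 0 < s) {x y : E3} (h : y ∉ ball x s) : ka s (‖x - y‖ ^ 2) = 0 := by
  refine ka_hi hs ?_
  rw [mem_ball, dist_eq_norm, not_lt] at h
  rw [norm_sub_rev]
  exact pow_le_pow_left₀ hs.le h 2

/-- convergence of the mollifications -/
lemma mo_lim {v : E3 → E3} (hv : MemLp v 2 (volume : Measure E3)) : ∀ᵐ x : E3, ∀ k : Fin 3, ∀ s : ℕ → ℝ,
    (∀ n, 0 < s n) → Tendsto s atTop (𝓝 0) → Tendsto (fun n => mo v k (s n) x) atTop (𝓝 (c0 * v x k)) := by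
  obtain ⟨D, hD, hk⟩ := ka_bd
  have hloc : LocallyIntegrable v (volume : Measure E3) := hv.locallyIntegrable one_le_two
  filter_upwards [(Besicovitch.vitaliFamily (volume : Measure E3)).ae_tendsto_average_norm_sub hloc] with x hx k s hs hs0
  have h1 : Tendsto (fun n => closedBall x (s n)) atTop
      ((Besicovitch.vitaliFamily (volume : Measure E3)).filterAt x) := by
    refine (Besicovitch.tendsto_filterAt (volume : Measure E3) x).comp ?_
    rw [tendsto_nhdsWithin_iff]
    exact ⟨hs0, Filter.Eventually.of_forall hs⟩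
  have h2 : Tendsto (fun n => ⨍ y in closedBall x (s n), ‖v y - v x‖) atTop (𝓝 0) := hx.comp h1
  have h3 : ∀ n, |mo v k (s n) x - c0 * v x k| ≤ D * V1 * ⨍ y in closedBall x (s n), ‖v y - v x‖ := by
    intro n
    have hsn := hs n
    have e1 : mo v k (s n) x - c0 * v x k = ∫ y, (v y k - v x k) * ka (s n) (‖x - y‖ ^ 2) := by
      rw [← ka_int hsn x, mul_comm, ← integral_const_mul]
      unfold mo
      rw [← integral_sub (int_mul (comp_memLp hv k) (kaE_cont _ x) (kaE_cs hsn x))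
        (((kaE_cont _ x).integrable_of_hasCompactSupport (kaE_cs hsn x)).const_mul _)]
      refine integral_congr_ae (Filter.Eventually.of_forall fun y => ?_)
      simp only
      ring
    have e2 : IntegrableOn (fun y => ‖v y - v x‖) (closedBall x (s n)) := by
      have a1 : IntegrableOn v (closedBall x (s n)) := hloc.integrableOn_isCompact (isCompact_closedBall x (s n))
      have a2 : IntegrableOn (fun _ : E3 => v x) (closedBall x (s n)) :=
        integrableOn_const (by exact (isCompact_closedBall x (s n)).measure_lt_top.ne)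
      exact (a1.sub a2).norm
    have e3 : |∫ y, (v y k - v x k) * ka (s n) (‖x - y‖ ^ 2)| ≤
        ∫ y in closedBall x (s n), ‖v y - v x‖ * (D * (s n)⁻¹ ^ 3) := by
      rw [← integral_indicator measurableSet_closedBall, ← Real.norm_eq_abs]
      refine norm_integral_le_of_norm_le ?_ (Filter.Eventually.of_forall fun y => ?_)
      · exact (integrable_indicator_iff measurableSet_closedBall).mpr (e2.mul_const _)
      · by_cases hy : y ∈ closedBall x (s n)
        · rw [indicator_of_mem hy, Real.norm_eq_abs, abs_mul]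
          refine mul_le_mul ?_ (hk _ hsn _) (abs_nonneg _) (norm_nonneg _)
          exact PiLp.norm_apply_le (v y - v x) k
        · rw [indicator_of_notMem hy, ka_zero hsn (fun hc => hy (ball_subset_closedBall hc)), mul_zero, norm_zero]
    rw [e1]
    refine e3.trans (le_of_eq ?_)
    rw [integral_mul_const, setAverage_eq, smul_eq_mul]
    have e4 : (volume : Measure E3).real (closedBall x (s n)) = (s n) ^ 3 * V1 := by
      rw [measureReal_def, Measure.addHaar_closedBall _ _ hsn.le, ENNReal.toReal_mul,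
        ENNReal.toReal_ofReal (by positivity), finrank_euclideanSpace, Fintype.card_fin]
      rfl
    rw [e4]
    have := V1_pos
    field_simp
  have h4 : Tendsto (fun n => D * V1 * ⨍ y in closedBall x (s n), ‖v y - v x‖) atTop (𝓝 0) := by
    have := h2.const_mul (D * V1)
    rwa [mul_zero] at this
  rw [tendsto_iff_norm_sub_tendsto_zero]
  exact squeeze_zero (fun n => norm_nonneg _) h3 h4

/-- the mollification at the scale `R` -/
lemma mo_top : ∃ D : ℝ, 0 < D ∧ ∀ v : E3 → E3, MemLp v 2 (volume : Measure E3) → ∀ (k : Fin 3) (R : ℝ) (x : E3), 0 < R →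
    (mo v k R x) ^ 2 ≤ D * ((∫ y, ‖v y‖ ^ 2) / R ^ 3) := by
  obtain ⟨D, hD, hk⟩ := ka_bd
  refine ⟨D ^ 2 * V1, by have := V1_pos; positivity, fun v hv k R x hR => ?_⟩
  have hV := V1_pos
  have hb : (volume : Measure E3) (ball x R) ≠ ⊤ := measure_ball_lt_top.ne
  have i1 : IntegrableOn (fun y => ‖v y‖) (ball x R) :=
    (((hv.locallyIntegrable one_le_two).integrableOn_isCompact (isCompact_closedBall x R)).mono_set
      ball_subset_closedBall).norm
  have i2 : Integrable (fun y => ‖v y‖ ^ 2) := hv.integrable_norm_pow (by norm_num)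
  set I := ∫ y in ball x R, ‖v y‖ with hI
  have h1 : |mo v k R x| ≤ D * R⁻¹ ^ 3 * I := by
    unfold mo
    rw [hI, ← integral_const_mul, ← integral_indicator measurableSet_ball, ← Real.norm_eq_abs]
    refine norm_integral_le_of_norm_le ?_ (Filter.Eventually.of_forall fun y => ?_)
    · exact (integrable_indicator_iff measurableSet_ball).mpr (i1.const_mul _)
    · by_cases hy : y ∈ ball x R
      · rw [indicator_of_mem hy, Real.norm_eq_abs, abs_mul, mul_comm]
        refine mul_le_mul (hk _ hR _) ?_ (abs_nonneg _) (by positivity)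
        exact PiLp.norm_apply_le (v y) k
      · rw [indicator_of_notMem hy, ka_zero hR hy, mul_zero, norm_zero]
  have h2 : I ^ 2 ≤ R ^ 3 * V1 * ∫ y, ‖v y‖ ^ 2 := by
    have hvol := vol_ball x hR.le
    set a := R ^ 3 * V1 with ha
    have ha0 : 0 < a := by positivity
    have h3 : 0 ≤ ∫ y in ball x R, (‖v y‖ - I / a) ^ 2 := integral_nonneg fun y => sq_nonneg _
    have h4 : ∫ y in ball x R, (‖v y‖ - I / a) ^ 2 =
        (∫ y in ball x R, ‖v y‖ ^ 2) - 2 * (I / a) * I + a * (I / a) ^ 2 := by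
      have e1 : (fun y => (‖v y‖ - I / a) ^ 2) = fun y => (‖v y‖ ^ 2 - 2 * (I / a) * ‖v y‖) + (I / a) ^ 2 := by
        funext y; ring
      rw [e1, integral_add, integral_sub, integral_const_mul, setIntegral_const, hvol, smul_eq_mul]
      · exact i2.integrableOn
      · exact i1.const_mul _
      · exact i2.integrableOn.sub (i1.const_mul _)
      · exact integrableOn_const hb
    have h5 : ∫ y in ball x R, ‖v y‖ ^ 2 ≤ ∫ y, ‖v y‖ ^ 2 :=
      setIntegral_le_integral i2 (Filter.Eventually.of_forall fun y => sq_nonneg _)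
    rw [h4] at h3
    have h6 : (∫ y in ball x R, ‖v y‖ ^ 2) - 2 * (I / a) * I + a * (I / a) ^ 2 =
        (∫ y in ball x R, ‖v y‖ ^ 2) - I ^ 2 / a := by
      field_simp
      ring
    rw [h6] at h3
    have h7 : I ^ 2 / a ≤ ∫ y, ‖v y‖ ^ 2 := by linarith
    rw [div_le_iff₀ ha0] at h7
    linarith
  have h3 : (mo v k R x) ^ 2 ≤ (D * R⁻¹ ^ 3 * I) ^ 2 := by
    rw [← sq_abs]
    exact pow_le_pow_left₀ (abs_nonneg _) h1 2
  refine h3.trans ?_
  have h4 : (D * R⁻¹ ^ 3 * I) ^ 2 = (D * R⁻¹ ^ 3) ^ 2 * I ^ 2 := by ring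
  rw [h4]
  refine (mul_le_mul_of_nonneg_left h2 (by positivity)).trans (le_of_eq ?_)
  field_simp

/-- growth of the mollifications -/
lemma mo_K {v : E3 → E3} {z : E3 → M3} (h : HS v z) (k : Fin 3) {K R : ℝ} (hR : 0 < R) (x : E3)
    (hM : ∀ r : ℝ, 0 < r → r ≤ R → ∫ y in ball x r, ‖vor (z y)‖ ≤ K * r) (hK : 0 ≤ K) (n : ℕ) :
    |mo v k (R / 2 ^ n) x| ≤ |mo v k R x| + 24 * K / (R / 2 ^ n) := by
  induction n with
  | zero =>
    rw [pow_zero, div_one]
    have : 0 ≤ 24 * K / R := by positivity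
    linarith
  | succ n ih =>
    have hs : 0 < R / 2 ^ n := by positivity
    have hsR : R / 2 ^ n ≤ R := div_le_self hR.le (one_le_pow₀ (by norm_num))
    have e : R / 2 ^ (n + 1) = R / 2 ^ n / 2 := by rw [pow_succ, div_div]
    rw [e]
    set s := R / 2 ^ n with hsd
    have h1 := mo_diff_le h k hs x
    have h2 := mul_le_mul_of_nonneg_left (hM s hs hsR) (show 0 ≤ 24 / s ^ 2 by positivity)
    have h3 : 24 / s ^ 2 * (K * s) = 24 * K / s := by field_simp
    have h4 : 24 * K / (s / 2) = 24 * K / s + 24 * K / s := by field_simp; ring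
    have h5 : |mo v k (s / 2) x| ≤ |mo v k s x| + |mo v k s x - mo v k (s / 2) x| := by
      have := abs_sub_abs_le_abs_sub (mo v k (s / 2) x) (mo v k s x)
      rw [abs_sub_comm] at this
      linarith
    rw [h4]
    linarith

lemma mo_M {v : E3 → E3} {z : E3 → M3} (h : HS v z) (k : Fin 3) {M R : ℝ} (hR : 0 < R) (x : E3)
    (hM : ∀ n : ℕ, ∫ y in ball x (R / 2 ^ n), ‖vor (z y)‖ ≤ (R / 2 ^ n) ^ 3 * V1 * M) (n j : ℕ) :
    |mo v k (R / 2 ^ n) x - mo v k (R / 2 ^ (n + j)) x| ≤ 48 * V1 * M * (R / 2 ^ n - R / 2 ^ (n + j)) := by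
  induction j with
  | zero => simp
  | succ j ih =>
    have hs : 0 < R / 2 ^ (n + j) := by positivity
    have e : R / 2 ^ (n + (j + 1)) = R / 2 ^ (n + j) / 2 := by rw [← add_assoc, pow_succ, div_div]
    rw [e]
    have hM' := hM (n + j)
    set s := R / 2 ^ (n + j) with hsd
    have h1 := mo_diff_le h k hs x
    have h2 := mul_le_mul_of_nonneg_left hM' (show 0 ≤ 24 / s ^ 2 by positivity)
    have h3 : 24 / s ^ 2 * (s ^ 3 * V1 * M) = 24 * V1 * M * s := by field_simp
    have h4 : |mo v k (R / 2 ^ n) x - mo v k (s / 2) x| ≤ |mo v k (R / 2 ^ n) x - mo v k s x| +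
        |mo v k s x - mo v k (s / 2) x| := abs_sub_le _ _ _
    calc _ ≤ 48 * V1 * M * (R / 2 ^ n - s) + 24 * V1 * M * s := by linarith
      _ = _ := by ring

/-- the pointwise bound -/
lemma point {c A M K R a : ℝ} {s : ℕ → ℝ} (hR : 0 < R) (hK : 0 ≤ K) (hM : 0 ≤ M)
    (hs : ∀ n, s n = R / 2 ^ n) (h : ∀ n, c * a ≤ A + 24 * K / s n + 48 * V1 * M * s n) :
    c * a ≤ A + 48 * (1 + V1) * (√(K * M) + K / R) := by
  have hV := V1_pos
  have hP : 0 ≤ √(K * M) := Real.sqrt_nonneg _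
  have hP2 : √(K * M) ^ 2 = K * M := Real.sq_sqrt (by positivity)
  have hs0 : ∀ n, 0 < s n := fun n => by rw [hs]; positivity
  have hslim : Tendsto s atTop (𝓝 0) := by
    have h1 : Tendsto (fun n : ℕ => R * (1 / 2 : ℝ) ^ n) atTop (𝓝 0) := by
      have := (tendsto_pow_atTop_nhds_zero_of_lt_one (r := (1/2:ℝ)) (by norm_num) (by norm_num)).const_mul R
      rwa [mul_zero] at this
    refine h1.congr fun n => ?_
    rw [hs, div_pow, one_pow]
    ring
  rcases hK.eq_or_lt with h0 | hKpos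
  · subst h0
    have h1 : ∀ n, c * a ≤ A + 48 * V1 * M * s n := fun n => by
      have := h n
      simpa using this
    have h2 : Tendsto (fun n => A + 48 * V1 * M * s n) atTop (𝓝 (A + 48 * V1 * M * 0)) :=
      tendsto_const_nhds.add (hslim.const_mul _)
    have h3 := ge_of_tendsto' h2 h1
    rw [mul_zero, add_zero] at h3
    have h4 : 0 ≤ 48 * (1 + V1) * (√(0 * M) + 0 / R) := by positivity
    linarith
  · have hex : ∃ n, M * s n ^ 2 ≤ K := by
      have h2 : Tendsto (fun n => M * s n ^ 2) atTop (𝓝 (M * 0 ^ 2)) := (hslim.pow 2).const_mul _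
      rw [zero_pow two_ne_zero, mul_zero] at h2
      exact ((h2.eventually (gt_mem_nhds hKpos)).exists).imp fun n hn => le_of_lt hn
    classical
    have hn := Nat.find_spec hex
    set n := Nat.find hex with hnd
    have h1 := h n
    have h2 : M * s n ≤ √(K * M) := by
      rw [← Real.sqrt_sq (mul_nonneg hM (hs0 n).le)]
      apply Real.sqrt_le_sqrt
      nlinarith [mul_le_mul_of_nonneg_left hn hM]
    have h3 : K / s n ≤ 2 * √(K * M) + K / R := by
      rcases Nat.eq_zero_or_pos n with h0 | hpos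
      · rw [h0, hs, pow_zero, div_one]
        linarith
      · have h4 := Nat.find_min hex (m := n - 1) (by omega)
        push Not at h4
        have h5 : s (n - 1) = 2 * s n := by
          rw [hs, hs]
          obtain ⟨m, hm⟩ : ∃ m, n = m + 1 := ⟨n - 1, by omega⟩
          rw [hm, Nat.add_sub_cancel, pow_succ]
          field_simp
        rw [h5] at h4
        have h6 : K / s n ≤ 2 * √(K * M) := by
          rw [div_le_iff₀ (hs0 n)]
          have h7 : K ^ 2 ≤ (2 * √(K * M) * s n) ^ 2 := by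
            rw [mul_pow, mul_pow, hP2]
            nlinarith [mul_lt_mul_of_pos_left h4 hKpos]
          exact (pow_le_pow_iff_left₀ hK (by have := (hs0 n).le; positivity) two_ne_zero).mp h7
        have : 0 ≤ K / R := by positivity
        linarith
    have h4 : 0 ≤ K / R := by positivity
    have e1 : 24 * K / s n = 24 * (K / s n) := by ring
    have e2 : 48 * V1 * M * s n = 48 * V1 * (M * s n) := by ring
    have h5 : 48 * V1 * (M * s n) ≤ 48 * V1 * √(K * M) := mul_le_mul_of_nonneg_left h2 (by positivity)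
    rw [e1, e2] at h1
    have h6 : 0 ≤ V1 * (K / R) := by positivity
    nlinarith

lemma pow_four {c P B n : ℝ} (hc : 0 ≤ c) (hP : 0 ≤ P) (hB : 0 ≤ B) (hn : 0 ≤ n) (h : n ≤ c * (P + B)) :
    n ^ 4 ≤ 16 * c ^ 4 * P ^ 4 + 4 * c ^ 2 * B ^ 2 * n ^ 2 := by
  rcases le_total B P with h1 | h1
  · have h2 : n ≤ 2 * c * P := by nlinarith [mul_le_mul_of_nonneg_left h1 hc]
    have h3 : n ^ 4 ≤ (2 * c * P) ^ 4 := pow_le_pow_left₀ hn h2 4
    have h4 : (2 * c * P) ^ 4 = 16 * c ^ 4 * P ^ 4 := by ring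
    have h5 : 0 ≤ 4 * c ^ 2 * B ^ 2 * n ^ 2 := by positivity
    linarith
  · have h2 : n ≤ 2 * c * B := by nlinarith [mul_le_mul_of_nonneg_left h1 hc]
    have h3 : n ^ 2 ≤ (2 * c * B) ^ 2 := pow_le_pow_left₀ hn h2 2
    have h4 : n ^ 4 = n ^ 2 * n ^ 2 := by ring
    have h5 : n ^ 2 * n ^ 2 ≤ (2 * c * B) ^ 2 * n ^ 2 := mul_le_mul_of_nonneg_right h3 (sq_nonneg _)
    have h6 : 0 ≤ 16 * c ^ 4 * P ^ 4 := by positivity
    rw [h4]
    nlinarith

lemma lint_sq {E : Type*} [NormedAddCommGroup E] {f : E3 → E} (hf : MemLp f 2 (volume : Measure E3)) :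
    ∫⁻ x, ‖f x‖ₑ ^ 2 = ENNReal.ofReal (∫ x, ‖f x‖ ^ 2) := by
  rw [ofReal_integral_eq_lintegral_ofReal (hf.integrable_norm_pow (by norm_num))
    (Filter.Eventually.of_forall fun x => sq_nonneg _)]
  refine lintegral_congr fun x => ?_
  rw [ENNReal.ofReal_pow (norm_nonneg _), ofReal_norm]

/-- **JOB HV-Q** -/
theorem stmQ (hMM : StmM) : StmQ := by
  obtain ⟨CM, hCM⟩ := hMM
  obtain ⟨D, hD, hmo⟩ := mo_top
  obtain ⟨Cv, hCv, hvor⟩ := vor_le
  have hV := V1_pos
  have hc := c0_pos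
  set C2 := 3 * (1 + 48 * (1 + V1)) / c0 with hC2
  have hC2p : 0 < C2 := by positivity
  refine ⟨16 * C2 ^ 4 * CM * Cv ^ 2 + 8 * C2 ^ 2 * (D + 1), by positivity, ?_⟩
  intro v z h K R hK hR hMor
  -- the measurable version of the vorticity
  have hvm := vor_memLp h.mz
  have hae : AEMeasurable (fun y => ‖vor (z y)‖ₑ) (volume : Measure E3) := hvm.1.enorm
  set f := hae.mk _ with hf
  have hfm : Measurable f := hae.measurable_mk
  have hfe : (fun y => ‖vor (z y)‖ₑ) =ᵐ[volume] f := hae.ae_eq_mk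
  have hs0 : ∀ n : ℕ, 0 < R / 2 ^ n := fun n => by positivity
  -- the maximal function over the dyadic radii
  set Md : E3 → ℝ≥0∞ := fun x => ⨆ n : ℕ, (volume (ball x (R / 2 ^ n)))⁻¹ * ∫⁻ y in ball x (R / 2 ^ n), f y with hMd
  have hMdm : Measurable Md := by
    refine Measurable.iSup fun n => ?_
    have e1 : (fun x : E3 => (volume (ball x (R / 2 ^ n)))⁻¹ * ∫⁻ y in ball x (R / 2 ^ n), f y) =
        fun x : E3 => (volume (ball (0 : E3) (R / 2 ^ n)))⁻¹ *
          ∫⁻ y, (ball (0 : E3) (R / 2 ^ n)).indicator (fun _ => (1 : ℝ≥0∞)) (y - x) * f y := by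
      funext x
      rw [Measure.addHaar_ball_center, ← lintegral_indicator measurableSet_ball]
      congr 1
      refine lintegral_congr fun y => ?_
      by_cases hy : y ∈ ball x (R / 2 ^ n)
      · rw [indicator_of_mem hy, indicator_of_mem, one_mul]
        rw [mem_ball, dist_zero_right]
        rwa [mem_ball, dist_eq_norm] at hy
      · rw [indicator_of_notMem hy, indicator_of_notMem, zero_mul]
        rw [mem_ball, dist_zero_right]
        rwa [mem_ball, dist_eq_norm] at hy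
    rw [e1]
    refine measurable_const.mul ?_
    have h1 : Measurable fun q : E3 × E3 => (ball (0 : E3) (R / 2 ^ n)).indicator (fun _ => (1 : ℝ≥0∞)) (q.2 - q.1) * f q.2 := by
      refine Measurable.mul ?_ (hfm.comp measurable_snd)
      exact (measurable_const.indicator measurableSet_ball).comp (measurable_snd.sub measurable_fst)
    exact h1.lintegral_prod_right'
  have hMdle : ∀ x, Md x ≤ MM f x := fun x => by
    refine iSup_le fun n => ?_
    unfold MM
    exact le_iSup_of_le (R / 2 ^ n) (le_iSup_of_le (hs0 n) le_rfl)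
  have hMd2 : ∫⁻ x, Md x ^ 2 ≤ ENNReal.ofReal (CM * Cv ^ 2 * ∫ x, ‖z x‖ ^ 2) := by
    calc ∫⁻ x, Md x ^ 2 ≤ ∫⁻ x, MM f x ^ 2 := lintegral_mono fun x => pow_le_pow_left' (hMdle x) 2
      _ ≤ CM * ∫⁻ x, f x ^ 2 := hCM f hfm
      _ = CM * ∫⁻ x, ‖vor (z x)‖ₑ ^ 2 := by
          congr 1
          refine lintegral_congr_ae ?_
          filter_upwards [hfe] with x hx
          rw [← hx]
      _ = CM * ENNReal.ofReal (∫ x, ‖vor (z x)‖ ^ 2) := by rw [lint_sq hvm]
      _ ≤ CM * ENNReal.ofReal (Cv ^ 2 * ∫ x, ‖z x‖ ^ 2) := by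
          refine mul_le_mul_right (ENNReal.ofReal_le_ofReal ?_) _
          rw [← integral_const_mul]
          refine integral_mono (hvm.integrable_norm_pow (by norm_num))
            ((h.mz.integrable_norm_pow (by norm_num)).const_mul _) fun x => ?_
          show ‖vor (z x)‖ ^ 2 ≤ Cv ^ 2 * ‖z x‖ ^ 2
          rw [← mul_pow]
          exact pow_le_pow_left₀ (norm_nonneg _) (hvor _) 2
      _ = _ := by
          rw [mul_assoc (CM : ℝ), ENNReal.ofReal_mul (NNReal.coe_nonneg CM), ENNReal.ofReal_coe_nnreal]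
  have hMdfin : ∀ᵐ x : E3, Md x < ⊤ := by
    have h1 : ∀ᵐ x : E3, Md x ^ 2 < ⊤ := ae_lt_top (hMdm.pow_const 2) (hMd2.trans_lt ENNReal.ofReal_lt_top).ne
    filter_upwards [h1] with x hx
    by_contra hc
    rw [not_lt, top_le_iff] at hc
    rw [hc] at hx
    simp at hx
  set IV := ∫ x, ‖v x‖ ^ 2 with hIV
  have hIV0 : 0 ≤ IV := integral_nonneg fun x => sq_nonneg _
  set A := √(D * (IV / R ^ 3)) with hA
  have hA0 : 0 ≤ A := Real.sqrt_nonneg _
  have hA2 : A ^ 2 = D * (IV / R ^ 3) := Real.sq_sqrt (by positivity)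
  -- the pointwise estimate
  have hpt : ∀ᵐ x : E3, ‖v x‖ₑ ^ 4 ≤ ENNReal.ofReal (16 * C2 ^ 4 * K ^ 2) * Md x ^ 2 +
      ENNReal.ofReal (4 * C2 ^ 2 * (A + K / R) ^ 2) * ‖v x‖ₑ ^ 2 := by
    filter_upwards [hMdfin, mo_lim h.mv] with x hx hlim
    set M := (Md x).toReal with hM
    have hM0 : 0 ≤ M := ENNReal.toReal_nonneg
    have hball : ∀ n : ℕ, ∫ y in ball x (R / 2 ^ n), ‖vor (z y)‖ ≤ (R / 2 ^ n) ^ 3 * V1 * M := by
      intro n
      have hvol := vol_ball x (hs0 n).le
      have h1 : (volume (ball x (R / 2 ^ n)))⁻¹ * ∫⁻ y in ball x (R / 2 ^ n), f y ≤ Md x :=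
        le_iSup (fun n : ℕ => (volume (ball x (R / 2 ^ n)))⁻¹ * ∫⁻ y in ball x (R / 2 ^ n), f y) n
      have hv0 : volume (ball x (R / 2 ^ n)) ≠ 0 := (measure_ball_pos _ _ (hs0 n)).ne'
      have hv1 : volume (ball x (R / 2 ^ n)) ≠ ⊤ := measure_ball_lt_top.ne
      have h2 : ∫⁻ y in ball x (R / 2 ^ n), f y ≤ volume (ball x (R / 2 ^ n)) * Md x := by
        calc ∫⁻ y in ball x (R / 2 ^ n), f y = volume (ball x (R / 2 ^ n)) *
            ((volume (ball x (R / 2 ^ n)))⁻¹ * ∫⁻ y in ball x (R / 2 ^ n), f y) := by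
              rw [← mul_assoc, ENNReal.mul_inv_cancel hv0 hv1, one_mul]
          _ ≤ _ := mul_le_mul_right h1 _
      have h3 : ∫⁻ y in ball x (R / 2 ^ n), f y = ∫⁻ y in ball x (R / 2 ^ n), ‖vor (z y)‖ₑ :=
        lintegral_congr_ae (ae_restrict_of_ae (hfe.mono fun y hy => hy.symm))
      rw [h3] at h2
      rw [integral_norm_eq_lintegral_enorm hvm.1.restrict]
      have h4 := ENNReal.toReal_mono (ENNReal.mul_ne_top hv1 hx.ne) h2
      rw [ENNReal.toReal_mul, ← measureReal_def, hvol] at h4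
      exact h4
    have hcomp : ∀ k : Fin 3, c0 * |v x k| ≤ A + 48 * (1 + V1) * (√(K * M) + K / R) := by
      intro k
      refine point (s := fun n => R / 2 ^ n) hR hK hM0 (fun n => rfl) fun n => ?_
      have hslim : Tendsto (fun n : ℕ => R / 2 ^ n) atTop (𝓝 0) := by
        have h1 : Tendsto (fun n : ℕ => R * (1 / 2 : ℝ) ^ n) atTop (𝓝 0) := by
          have := (tendsto_pow_atTop_nhds_zero_of_lt_one (r := (1/2:ℝ)) (by norm_num) (by norm_num)).const_mul R
          rwa [mul_zero] at this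
        refine h1.congr fun n => ?_
        rw [div_pow, one_pow]
        ring
      have h1 := mo_K h k hR x (fun r hr hrR => hMor x r hr hrR) hK n
      have h2 : |mo v k (R / 2 ^ n) x - c0 * v x k| ≤ 48 * V1 * M * (R / 2 ^ n) := by
        have h3 : Tendsto (fun j : ℕ => |mo v k (R / 2 ^ n) x - mo v k (R / 2 ^ (n + j)) x|) atTop
            (𝓝 |mo v k (R / 2 ^ n) x - c0 * v x k|) := by
          have h4 := hlim k (fun j => R / 2 ^ j) hs0 hslim
          have h5 : Tendsto (fun j : ℕ => n + j) atTop atTop := tendsto_atTop_mono (fun j => Nat.le_add_left j n) tendsto_id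
          exact (tendsto_const_nhds.sub (h4.comp h5)).abs
        refine le_of_tendsto' h3 fun j => (mo_M h k hR x hball n j).trans ?_
        have := hs0 (n + j)
        have h6 : 0 ≤ 48 * V1 * M := by positivity
        nlinarith
      have h3 : |mo v k R x| ≤ A := by
        rw [hA, ← Real.sqrt_sq_eq_abs]
        exact Real.sqrt_le_sqrt (hmo v h.mv k R x hR)
      have h4 : c0 * |v x k| = |c0 * v x k| := by rw [abs_mul, abs_of_pos hc]
      have h5 : |c0 * v x k| ≤ |mo v k (R / 2 ^ n) x| + |mo v k (R / 2 ^ n) x - c0 * v x k| := by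
        have := abs_sub_abs_le_abs_sub (c0 * v x k) (mo v k (R / 2 ^ n) x)
        rw [abs_sub_comm] at this
        linarith
      rw [h4]
      linarith
    have hnorm : ‖v x‖ ≤ C2 * (√(K * M) + (A + K / R)) := by
      have h1 : ‖v x‖ ≤ ∑ k, |v x k| := by
        have h2 : ‖v x‖ ^ 2 ≤ (∑ k, |v x k|) ^ 2 := by
          rw [norm_sq_sum, Fin.sum_univ_three, Fin.sum_univ_three]
          have a0 := abs_nonneg (v x 0)
          have a1 := abs_nonneg (v x 1)
          have a2 := abs_nonneg (v x 2)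
          have b0 := abs_mul_abs_self (v x 0)
          have b1 := abs_mul_abs_self (v x 1)
          have b2 := abs_mul_abs_self (v x 2)
          nlinarith [mul_nonneg a0 a1, mul_nonneg a0 a2, mul_nonneg a1 a2]
        exact (pow_le_pow_iff_left₀ (norm_nonneg _) (Finset.sum_nonneg fun _ _ => abs_nonneg _) two_ne_zero).mp h2
      have h2 : c0 * ‖v x‖ ≤ 3 * (A + 48 * (1 + V1) * (√(K * M) + K / R)) := by
        have h3 := mul_le_mul_of_nonneg_left h1 hc.le
        rw [Finset.mul_sum, Fin.sum_univ_three] at h3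
        linarith [hcomp 0, hcomp 1, hcomp 2]
      have h3 : 0 ≤ √(K * M) := Real.sqrt_nonneg _
      have h4 : 0 ≤ K / R := by positivity
      rw [hC2, div_mul_eq_mul_div, le_div_iff₀ hc]
      have h5 : 0 ≤ V1 * A := by positivity
      nlinarith
    have h4 := pow_four hC2p.le (Real.sqrt_nonneg (K * M)) (show 0 ≤ A + K / R by positivity) (norm_nonneg (v x)) hnorm
    have h5 : √(K * M) ^ 4 = K ^ 2 * M ^ 2 := by
      rw [show √(K * M) ^ 4 = (√(K * M) ^ 2) ^ 2 by ring, Real.sq_sqrt (by positivity)]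
      ring
    rw [h5] at h4
    have h6 : ‖v x‖ₑ ^ 4 = ENNReal.ofReal (‖v x‖ ^ 4) := by
      rw [ENNReal.ofReal_pow (norm_nonneg _), ofReal_norm]
    have h7 : ‖v x‖ₑ ^ 2 = ENNReal.ofReal (‖v x‖ ^ 2) := by
      rw [ENNReal.ofReal_pow (norm_nonneg _), ofReal_norm]
    have h8 : Md x ^ 2 = ENNReal.ofReal (M ^ 2) := by
      rw [ENNReal.ofReal_pow hM0, hM, ENNReal.ofReal_toReal hx.ne]
    rw [h6, h7, h8, ← ENNReal.ofReal_mul (by positivity), ← ENNReal.ofReal_mul (by positivity),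
      ← ENNReal.ofReal_add (by positivity) (by positivity)]
    apply ENNReal.ofReal_le_ofReal
    linarith
  -- integration
  have hL4 : eLpNorm v 4 (volume : Measure E3) ^ 4 = ∫⁻ x, ‖v x‖ₑ ^ 4 := by
    have h1 := eLpNorm_nnreal_pow_eq_lintegral (f := v) (μ := (volume : Measure E3)) (p := 4) (by norm_num)
    have h2 : ((4 : ℝ≥0) : ℝ) = ((4 : ℕ) : ℝ) := by norm_num
    rw [h2] at h1
    simp only [ENNReal.rpow_natCast] at h1
    exact h1
  rw [hL4]
  calc ∫⁻ x, ‖v x‖ₑ ^ 4 ≤ ∫⁻ x, (ENNReal.ofReal (16 * C2 ^ 4 * K ^ 2) * Md x ^ 2 +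
      ENNReal.ofReal (4 * C2 ^ 2 * (A + K / R) ^ 2) * ‖v x‖ₑ ^ 2) := lintegral_mono_ae hpt
    _ = ENNReal.ofReal (16 * C2 ^ 4 * K ^ 2) * (∫⁻ x, Md x ^ 2) +
      ENNReal.ofReal (4 * C2 ^ 2 * (A + K / R) ^ 2) * ∫⁻ x, ‖v x‖ₑ ^ 2 := by
        rw [lintegral_add_left ((hMdm.pow_const 2).const_mul _), lintegral_const_mul _ (hMdm.pow_const 2),
          lintegral_const_mul'' _ (h.mv.1.enorm.pow_const 2)]
    _ ≤ ENNReal.ofReal (16 * C2 ^ 4 * K ^ 2) * ENNReal.ofReal (CM * Cv ^ 2 * ∫ x, ‖z x‖ ^ 2) +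
      ENNReal.ofReal (4 * C2 ^ 2 * (A + K / R) ^ 2) * ENNReal.ofReal IV := by
        rw [lint_sq h.mv]
        gcongr
    _ = ENNReal.ofReal (16 * C2 ^ 4 * K ^ 2 * (CM * Cv ^ 2 * ∫ x, ‖z x‖ ^ 2) +
      4 * C2 ^ 2 * (A + K / R) ^ 2 * IV) := by
        rw [← ENNReal.ofReal_mul (by positivity), ← ENNReal.ofReal_mul (by positivity),
          ← ENNReal.ofReal_add (by positivity) (by positivity)]
    _ ≤ _ := by
        apply ENNReal.ofReal_le_ofReal
        set IZ := ∫ x, ‖z x‖ ^ 2 with hIZ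
        have hIZ0 : 0 ≤ IZ := integral_nonneg fun x => sq_nonneg _
        have h1 : (A + K / R) ^ 2 ≤ 2 * (D + 1) * (K ^ 2 / R ^ 2 + IV / R ^ 3) := by
          have e1 : (A + K / R) ^ 2 ≤ 2 * A ^ 2 + 2 * (K / R) ^ 2 := by nlinarith [sq_nonneg (A - K / R)]
          rw [hA2, div_pow] at e1
          have e2 : 0 ≤ K ^ 2 / R ^ 2 := by positivity
          have e3 : 0 ≤ IV / R ^ 3 := by positivity
          nlinarith [mul_nonneg hD.le e2]
        have h2 : 4 * C2 ^ 2 * (A + K / R) ^ 2 * IV ≤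
            8 * C2 ^ 2 * (D + 1) * ((K ^ 2 / R ^ 2 + IV / R ^ 3) * IV) := by
          have h3 : 4 * C2 ^ 2 * (A + K / R) ^ 2 * IV ≤
              4 * C2 ^ 2 * (2 * (D + 1) * (K ^ 2 / R ^ 2 + IV / R ^ 3)) * IV := by gcongr
          linarith
        have h3 : 0 ≤ 8 * C2 ^ 2 * (D + 1) * (K ^ 2 * IZ) := by positivity
        have h4 : 0 ≤ 16 * C2 ^ 4 * CM * Cv ^ 2 * ((K ^ 2 / R ^ 2 + IV / R ^ 3) * IV) := by positivity
        have h5 : 16 * C2 ^ 4 * K ^ 2 * (CM * Cv ^ 2 * IZ) = 16 * C2 ^ 4 * CM * Cv ^ 2 * (K ^ 2 * IZ) := by ring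
        rw [h5]
        nlinarith

end Pool.Agent.Q175.HV
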